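import Pool.Agent.Helper99.AE.Univ

/-!
Families of increasing functions of a real variable with bounded distortion on a logarithmic scale.
-/

set_option autoImplicit false

open MeasureTheory Filter Topology Finset
open scoped ENNReal

namespace Pool.Agent.Helper99.AE

/-- the dominating weights -/
noncomputable def wt (s : ℝ) (A B : ℕ) (k : ℕ) : ℝ := if k ≤ B then s / max (k : ℝ) A else 0

lemma wt_antitone {s : ℝ} (hs : 0 ≤ s) {A B : ℕ} (hA : 1 ≤ A) : Antitone (wt s A B) := by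
  intro k l hkl
  have hA' : (0 : ℝ) < A := by exact_mod_cast hA
  unfold wt
  split_ifs with h1 h2
  · apply div_le_div_of_nonneg_left hs (lt_max_of_lt_right hA')
    exact max_le_max_right _ (by exact_mod_cast hkl)
  · exact absurd (hkl.trans h1) h2
  · have : (0 : ℝ) < max (k : ℝ) A := lt_max_of_lt_right hA'
    positivity
  · exact le_rfl

lemma sum_inv_le {A : ℕ} (hA : 1 ≤ A) (j : ℕ) :
    ∑ k ∈ range j, 1 / ((A + 1 + k : ℕ) : ℝ) ≤ Real.log ((A + j : ℕ) / (A : ℝ)) := by
  have hA' : (0 : ℝ) < A := by exact_mod_cast hA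
  induction j with
  | zero =>
    simp [div_self hA'.ne']
  | succ j ih =>
    rw [sum_range_succ]
    have h1 : (0 : ℝ) < (A + j : ℕ) := by
      push_cast
      positivity
    have h2 : (0 : ℝ) < (A + (j + 1) : ℕ) := by
      push_cast
      positivity
    have h3 : Real.log ((A + (j + 1) : ℕ) / (A : ℝ)) = Real.log ((A + j : ℕ) / (A : ℝ)) +
        Real.log ((A + (j + 1) : ℕ) / ((A + j : ℕ) : ℝ)) := by
      rw [← Real.log_mul (by positivity) (by positivity)]
      congr 1
      field_simp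
    have h4 := Real.one_sub_inv_le_log_of_pos
      (show (0 : ℝ) < (A + (j + 1) : ℕ) / ((A + j : ℕ) : ℝ) by positivity)
    have h5 : 1 - ((A + (j + 1) : ℕ) / ((A + j : ℕ) : ℝ))⁻¹ = 1 / ((A + 1 + j : ℕ) : ℝ) := by
      have h6 : (A : ℝ) + j ≠ 0 := by positivity
      have h7 : (A : ℝ) + (j + 1) ≠ 0 := by positivity
      have h8 : (A : ℝ) + 1 + j ≠ 0 := by positivity
      push_cast
      field_simp
      ring
    rw [h3]
    linarith

lemma wt_sum {s : ℝ} (hs : 0 ≤ s) {A B : ℕ} (hA : 1 ≤ A) (hAB : A ≤ B) (N : ℕ) :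
    ∑ k ∈ range N, wt s A B k ≤ s * (2 + Real.log (B / A)) := by
  have hA' : (0 : ℝ) < A := by exact_mod_cast hA
  have hw0 : ∀ k, 0 ≤ wt s A B k := by
    intro k
    unfold wt
    split_ifs
    · have : (0 : ℝ) < max (k : ℝ) A := lt_max_of_lt_right hA'
      positivity
    · exact le_rfl
  have h1 : ∑ k ∈ range N, wt s A B k ≤ ∑ k ∈ range (B + 1), wt s A B k := by
    have h2 : ∑ k ∈ range N, wt s A B k = ∑ k ∈ (range N).filter (fun k => k ≤ B), wt s A B k := by
      rw [sum_filter]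
      apply sum_congr rfl
      intro k _
      unfold wt
      split_ifs <;> rfl
    rw [h2]
    apply sum_le_sum_of_subset_of_nonneg
    · intro k hk
      rw [mem_filter] at hk
      rw [mem_range]
      omega
    · intro k _ _
      exact hw0 k
  refine h1.trans ?_
  obtain ⟨j, rfl⟩ := Nat.exists_eq_add_of_le hAB
  rw [show A + j + 1 = (A + 1) + j by ring, sum_range_add]
  have h3 : ∑ k ∈ range (A + 1), wt s A (A + j) k ≤ s * 2 := by
    have h4 : ∀ k ∈ range (A + 1), wt s A (A + j) k ≤ s / A := by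
      intro k _
      unfold wt
      split_ifs
      · exact div_le_div_of_nonneg_left hs hA' (le_max_right _ _)
      · positivity
    refine (sum_le_sum h4).trans ?_
    rw [sum_const, card_range, nsmul_eq_mul]
    push_cast
    have h5 : (1 : ℝ) ≤ A := by exact_mod_cast hA
    rw [← mul_div_assoc, div_le_iff₀ hA']
    nlinarith
  have h4 : ∑ k ∈ range j, wt s A (A + j) (A + 1 + k) ≤
      s * Real.log (((A + j : ℕ) : ℝ) / A) := by
    refine le_trans ?_ (mul_le_mul_of_nonneg_left (sum_inv_le hA j) hs)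
    rw [mul_sum]
    apply sum_le_sum
    intro k _
    unfold wt
    have h6 : (0 : ℝ) < (A + 1 + k : ℕ) := by
      push_cast
      positivity
    split_ifs
    · rw [mul_one_div]
      exact div_le_div_of_nonneg_left hs h6 (le_max_left _ _)
    · positivity
  linarith

/-- the bounded distortion condition on an interval -/
def Distortion (I : Set ℝ) (F : ℝ → ℝ) (m K : ℝ) : Prop :=
  ∀ x ∈ I, 0 < F x ∧ ∀ y ∈ I, x ≤ y →
    m * (y - x) ≤ Real.log (F y) - Real.log (F x) ∧
    Real.log (F y) - Real.log (F x) ≤ K * m * (y - x)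

lemma Distortion.mono {I J : Set ℝ} {F : ℝ → ℝ} {m K : ℝ} (h : Distortion I F m K) (hJ : J ⊆ I) :
    Distortion J F m K := fun x hx => ⟨(h x (hJ hx)).1, fun y hy => (h x (hJ hx)).2 y (hJ hy)⟩

lemma Distortion.monotoneOn {I : Set ℝ} {F : ℝ → ℝ} {m K : ℝ} (h : Distortion I F m K)
    (hm : 0 ≤ m) : MonotoneOn F I := by
  intro x hx y hy hxy
  obtain ⟨h1, h2⟩ := h x hx
  have h3 := (h2 y hy hxy).1
  have h4 : 0 ≤ m * (y - x) := mul_nonneg hm (by linarith)
  exact (Real.log_le_log_iff h1 (h y hy).1).1 (by linarith)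

/-- the law of the integer part -/
lemma law {a b : ℝ} (hab : a < b) {F : ℝ → ℝ} {m K : ℝ} (hm : 0 < m)
    (h : Distortion (Set.Icc a b) F m K) (h1 : 1 ≤ F a) (k : ℕ) :
    (volume (Set.Icc a b ∩ {x | ⌊F x⌋₊ = k})).toReal ≤ wt m⁻¹ ⌊F a⌋₊ ⌊F b⌋₊ k := by
  have hmono := h.monotoneOn hm.le
  have ha : a ∈ Set.Icc a b := ⟨le_rfl, hab.le⟩
  have hb : b ∈ Set.Icc a b := ⟨hab.le, le_rfl⟩
  have hA : 1 ≤ ⌊F a⌋₊ := Nat.le_floor (by simpa using h1)
  by_cases hk : ⌊F a⌋₊ ≤ k ∧ k ≤ ⌊F b⌋₊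
  · have hk0 : (0 : ℝ) < k := by exact_mod_cast (lt_of_lt_of_le hA hk.1)
    have e : wt m⁻¹ ⌊F a⌋₊ ⌊F b⌋₊ k = m⁻¹ / k := by
      unfold wt
      rw [if_pos hk.2, max_eq_left (by exact_mod_cast hk.1)]
    rw [e]
    have hpos : 0 ≤ m⁻¹ / k := by positivity
    apply ENNReal.toReal_le_of_le_ofReal hpos
    refine (Real.volume_le_diam _).trans ?_
    apply Metric.ediam_le
    intro x hx y hy
    rw [edist_dist, Real.dist_eq]
    apply ENNReal.ofReal_le_ofReal
    have key : ∀ x ∈ Set.Icc a b ∩ {x | ⌊F x⌋₊ = k}, ∀ y ∈ Set.Icc a b ∩ {x | ⌊F x⌋₊ = k},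
        x ≤ y → y - x ≤ m⁻¹ / k := by
      rintro x ⟨hx, hxk⟩ y ⟨hy, hyk⟩ hxy
      obtain ⟨h2, h3⟩ := h x hx
      have h4 := (h3 y hy hxy).1
      have h5 := (h y hy).1
      have h6 : (k : ℝ) ≤ F x := by
        have h61 : ⌊F x⌋₊ = k := hxk
        rw [← h61]
        exact Nat.floor_le h2.le
      have h7 : F y < k + 1 := by
        have h71 : ⌊F y⌋₊ = k := hyk
        rw [← h71]
        exact Nat.lt_floor_add_one _
      have h8 : Real.log (F y) - Real.log (F x) ≤ 1 / k := by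
        rw [← Real.log_div h5.ne' h2.ne']
        have h9 := Real.log_le_sub_one_of_pos (div_pos h5 h2)
        have h10 : F y / F x ≤ (k + 1) / k := by
          rw [div_le_div_iff₀ h2 hk0]
          nlinarith
        have h11 : ((k : ℝ) + 1) / k - 1 = 1 / k := by field_simp; ring
        linarith
      have h9 : y - x ≤ (1 / k) / m := by
        rw [le_div_iff₀ hm]
        linarith
      refine h9.trans (le_of_eq ?_)
      field_simp
    rcases le_total x y with hxy | hxy
    · rw [abs_sub_comm, abs_of_nonneg (by linarith)]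
      exact key x hx y hy hxy
    · rw [abs_of_nonneg (by linarith)]
      exact key y hy x hx hxy
  · have : Set.Icc a b ∩ {x | ⌊F x⌋₊ = k} = ∅ := by
      rw [Set.eq_empty_iff_forall_notMem]
      rintro x ⟨hx, hxk⟩
      have hxk' : ⌊F x⌋₊ = k := hxk
      exact hk ⟨hxk' ▸ Nat.floor_le_floor (hmono ha hx hx.1),
        hxk' ▸ Nat.floor_le_floor (hmono hx hb hx.2)⟩
    rw [this, measure_empty, ENNReal.toReal_zero]
    unfold wt
    split_ifs
    · positivity
    · exact le_rfl

/-- the compact intervals -/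
theorem family_Icc {a b : ℝ} (hab : a < b) {f : ℕ → ℝ → ℝ} {m : ℕ → ℝ} {K m₀ : ℝ} (hm₀ : 0 < m₀)
    (h : ∀ᶠ n in atTop, m₀ ≤ m n ∧ Distortion (Set.Icc a b) (f n) (m n) K)
    (hlim : Tendsto (fun n => f n a) atTop atTop) {M : Set ℕ} (hM : M.Infinite) :
    ∀ᵐ α : ℝ, α ∈ Set.Icc a b → ∀ ε : ℝ, 0 < ε →
      ∃ T : Set ℕ, T ⊆ M ∧ Dens M T ε ∧ Universal (fun n => ⌊f n α⌋₊) T := by
  have hba : 0 < b - a := by linarith
  have hvol : volume (Set.Icc a b) = ENNReal.ofReal (b - a) := Real.volume_Icc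
  have hv0 : volume (Set.Icc a b) ≠ 0 := by
    rw [hvol]
    simpa using hab
  have hvt : volume (Set.Icc a b) ≠ ∞ := by
    rw [hvol]
    exact ENNReal.ofReal_ne_top
  set P : Measure ℝ := (volume (Set.Icc a b))⁻¹ • volume.restrict (Set.Icc a b) with hP
  have hPp : IsProbabilityMeasure P := by
    constructor
    rw [hP, Measure.smul_apply, Measure.restrict_apply MeasurableSet.univ, Set.univ_inter,
      smul_eq_mul, ENNReal.inv_mul_cancel hv0 hvt]
  have hPr : ∀ s : Set ℝ, P.real s ≤ (b - a)⁻¹ * (volume (Set.Icc a b ∩ s)).toReal := by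
    intro s
    rw [measureReal_def, hP, Measure.smul_apply, Measure.restrict_apply' measurableSet_Icc,
      smul_eq_mul, ENNReal.toReal_mul, ENNReal.toReal_inv, hvol, ENNReal.toReal_ofReal hba.le,
      Set.inter_comm]
  have main : ∀ᵐ α ∂P, ∀ ε : ℝ, 0 < ε →
      ∃ T : Set ℕ, T ⊆ M ∧ Dens M T ε ∧ Universal (fun n => ⌊f n α⌋₊) T := by
    refine random (P := P) (c := fun n α => ⌊f n α⌋₊) hM
      (w := fun n => wt ((b - a)⁻¹ * (m n)⁻¹) ⌊f n a⌋₊ ⌊f n b⌋₊)
      (K := (b - a)⁻¹ * (3 / m₀ + K * (b - a))) ?_ ?_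
    · filter_upwards [h, hlim.eventually (eventually_ge_atTop 1)] with n hn h1
      obtain ⟨hmn, hdis⟩ := hn
      have hmp : 0 < m n := lt_of_lt_of_le hm₀ hmn
      have hs : 0 ≤ (b - a)⁻¹ * (m n)⁻¹ := by positivity
      have hA : 1 ≤ ⌊f n a⌋₊ := Nat.le_floor (by simpa using h1)
      have ha : a ∈ Set.Icc a b := ⟨le_rfl, hab.le⟩
      have hb : b ∈ Set.Icc a b := ⟨hab.le, le_rfl⟩
      have hmono := hdis.monotoneOn hmp.le
      have hfab : f n a ≤ f n b := hmono ha hb hab.le
      have hAB : ⌊f n a⌋₊ ≤ ⌊f n b⌋₊ := Nat.floor_le_floor hfab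
      refine ⟨?_, wt_antitone hs hA, fun N => ?_, fun k => ?_⟩
      · have h2 : AEMeasurable (f n) (volume.restrict (Set.Icc a b)) :=
          aemeasurable_restrict_of_monotoneOn measurableSet_Icc hmono
        exact (Nat.measurable_floor.comp_aemeasurable h2).smul_measure _
      · refine (wt_sum hs hA hAB N).trans ?_
        have hA' : (0 : ℝ) < ⌊f n a⌋₊ := by exact_mod_cast hA
        have hB' : (0 : ℝ) < ⌊f n b⌋₊ := by exact_mod_cast (lt_of_lt_of_le hA hAB)
        have hfa : 0 < f n a := by linarith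
        have h3 : Real.log (⌊f n b⌋₊ / ⌊f n a⌋₊) ≤ 1 + K * m n * (b - a) := by
          have h4 : (⌊f n b⌋₊ : ℝ) ≤ f n b := Nat.floor_le (by linarith)
          have h5 : f n a ≤ 2 * ⌊f n a⌋₊ := by
            have h6 := Nat.lt_floor_add_one (f n a)
            have h7 : (1 : ℝ) ≤ ⌊f n a⌋₊ := by exact_mod_cast hA
            linarith
          have h6 : (⌊f n b⌋₊ : ℝ) / ⌊f n a⌋₊ ≤ 2 * (f n b / f n a) := by
            rw [← mul_div_assoc, div_le_div_iff₀ hA' hfa]
            nlinarith [Nat.cast_nonneg (α := ℝ) ⌊f n b⌋₊, Nat.cast_nonneg (α := ℝ) ⌊f n a⌋₊]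
          have h7 : Real.log (⌊f n b⌋₊ / ⌊f n a⌋₊) ≤ Real.log (2 * (f n b / f n a)) :=
            Real.log_le_log (by positivity) h6
          have hfb : 0 < f n b := by linarith
          rw [Real.log_mul (by norm_num) (by positivity), Real.log_div hfb.ne' hfa.ne'] at h7
          have h8 := ((hdis a ha).2 b hb hab.le).2
          have h9 : Real.log 2 ≤ 1 := by
            have := Real.log_two_lt_d9
            linarith
          linarith
        have h4 : (m n)⁻¹ ≤ m₀⁻¹ := inv_anti₀ hm₀ hmn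
        calc (b - a)⁻¹ * (m n)⁻¹ * (2 + Real.log (⌊f n b⌋₊ / ⌊f n a⌋₊)) ≤
              (b - a)⁻¹ * (m n)⁻¹ * (3 + K * m n * (b - a)) := by
              apply mul_le_mul_of_nonneg_left _ hs
              linarith
          _ = (b - a)⁻¹ * (3 * (m n)⁻¹ + K * (b - a) * ((m n)⁻¹ * m n)) := by ring
          _ = (b - a)⁻¹ * (3 * (m n)⁻¹ + K * (b - a)) := by
              rw [inv_mul_cancel₀ hmp.ne', mul_one]
          _ ≤ (b - a)⁻¹ * (3 / m₀ + K * (b - a)) := by
              apply mul_le_mul_of_nonneg_left _ (by positivity)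
              rw [div_eq_mul_inv]
              linarith
      · refine (hPr _).trans ?_
        refine (mul_le_mul_of_nonneg_left (law hab hmp hdis h1 k) (by positivity)).trans (le_of_eq ?_)
        unfold wt
        split_ifs
        · ring
        · ring
    · have h5 : Tendsto (fun n => (⌊f n a⌋₊ : ℝ)) atTop atTop :=
        tendsto_natCast_atTop_atTop.comp (tendsto_nat_floor_atTop.comp hlim)
      have h6 : Tendsto (fun n => ((b - a)⁻¹ * m₀⁻¹) * (⌊f n a⌋₊ : ℝ)⁻¹) atTop (𝓝 0) := by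
        simpa using h5.inv_tendsto_atTop.const_mul ((b - a)⁻¹ * m₀⁻¹)
      refine squeeze_zero' ?_ ?_ h6
      · filter_upwards [h] with n hn
        have hmp : 0 < m n := lt_of_lt_of_le hm₀ hn.1
        unfold wt
        split_ifs
        · positivity
        · exact le_rfl
      · filter_upwards [h] with n hn
        have hmp : 0 < m n := lt_of_lt_of_le hm₀ hn.1
        have h4 : (m n)⁻¹ ≤ m₀⁻¹ := inv_anti₀ hm₀ hn.1
        unfold wt
        rw [if_pos (Nat.zero_le _), Nat.cast_zero, max_eq_right (Nat.cast_nonneg _), div_eq_mul_inv]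
        gcongr
  have habs : volume.restrict (Set.Icc a b) ≪ P := by
    rw [hP]
    exact Measure.absolutelyContinuous_smul (ENNReal.inv_ne_zero.2 hvt)
  have h2 := habs.ae_le main
  exact (ae_restrict_iff' measurableSet_Icc).1 h2

/-- **Families of functions of a real variable.** -/
theorem family {a b : ℝ} {f : ℕ → ℝ → ℝ} {m : ℕ → ℝ} {K m₀ : ℝ} (hm₀ : 0 < m₀)
    (h : ∀ᶠ n in atTop, m₀ ≤ m n ∧ Distortion (Set.Ioo a b) (f n) (m n) K)
    (hlim : ∀ x ∈ Set.Ioo a b, Tendsto (fun n => f n x) atTop atTop) {M : Set ℕ} (hM : M.Infinite) :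
    ∀ᵐ α : ℝ, α ∈ Set.Ioo a b → ∀ ε : ℝ, 0 < ε →
      ∃ T : Set ℕ, T ⊆ M ∧ Dens M T ε ∧ Universal (fun n => ⌊f n α⌋₊) T := by
  have main : ∀ᵐ α : ℝ, ∀ i : ℕ, α ∈ Set.Icc (a + 1 / (i + 1)) (b - 1 / (i + 1)) →
      ∀ ε : ℝ, 0 < ε → ∃ T : Set ℕ, T ⊆ M ∧ Dens M T ε ∧ Universal (fun n => ⌊f n α⌋₊) T := by
    rw [ae_all_iff]
    intro i
    have hi : (0 : ℝ) < 1 / (i + 1) := by positivity
    rcases lt_or_ge (a + 1 / ((i : ℝ) + 1)) (b - 1 / (i + 1)) with hlt | hge
    · refine family_Icc (m := m) (K := K) hlt hm₀ ?_ (hlim _ ⟨by linarith, by linarith⟩) hM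
      filter_upwards [h] with n hn
      refine ⟨hn.1, hn.2.mono ?_⟩
      intro x hx
      exact ⟨by linarith [hx.1], by linarith [hx.2]⟩
    · have h1 : ∀ᵐ α : ℝ, α ≠ a + 1 / ((i : ℝ) + 1) := by
        rw [ae_iff]
        simp
      filter_upwards [h1] with α hα hαI
      exact absurd (le_antisymm (hαI.2.trans hge) hαI.1) hα
  filter_upwards [main] with α hα hαI
  obtain ⟨i, hi⟩ := exists_nat_one_div_lt (show (0 : ℝ) < min (α - a) (b - α) from
    lt_min (by linarith [hαI.1]) (by linarith [hαI.2]))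
  have h1 := hi.trans_le (min_le_left _ _)
  have h2 := hi.trans_le (min_le_right _ _)
  exact hα i ⟨by linarith, by linarith⟩

/-- **Powers of almost every real number.** -/
theorem powers {M : Set ℕ} (hM : M.Infinite) : ∀ᵐ α : ℝ, 1 < α → ∀ ε : ℝ, 0 < ε →
    ∃ T : Set ℕ, T ⊆ M ∧ Dens M T ε ∧ Universal (fun n => ⌊α ^ n⌋₊) T := by
  have main : ∀ᵐ α : ℝ, ∀ i : ℕ, α ∈ Set.Ioo (1 + 1 / ((i : ℝ) + 1)) (i + 3) →
      ∀ ε : ℝ, 0 < ε → ∃ T : Set ℕ, T ⊆ M ∧ Dens M T ε ∧ Universal (fun n => ⌊α ^ n⌋₊) T := by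
    rw [ae_all_iff]
    intro i
    have hi : (0 : ℝ) < 1 / (i + 1) := by positivity
    have ha : (1 : ℝ) < 1 + 1 / (i + 1) := by linarith
    have hb : (0 : ℝ) < i + 3 := by positivity
    refine family (f := fun n α => α ^ n) (m := fun n => n / (i + 3)) (m₀ := 1 / (i + 3))
      (K := (i + 3) / (1 + 1 / ((i : ℝ) + 1))) (by positivity) ?_ ?_ hM
    · filter_upwards [eventually_ge_atTop 1] with n hn
      have hn' : (1 : ℝ) ≤ n := by exact_mod_cast hn
      refine ⟨div_le_div_of_nonneg_right hn' hb.le, fun x hx => ?_⟩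
      have hx0 : 0 < x := by linarith [hx.1]
      refine ⟨by positivity, fun y hy hxy => ?_⟩
      have hy0 : 0 < y := by linarith
      rw [Real.log_pow, Real.log_pow]
      have hlog : Real.log (y / x) = Real.log y - Real.log x := Real.log_div hy0.ne' hx0.ne'
      have h1 := Real.one_sub_inv_le_log_of_pos (div_pos hy0 hx0)
      have h2 := Real.log_le_sub_one_of_pos (div_pos hy0 hx0)
      rw [hlog] at h1 h2
      have h3 : (y - x) / (i + 3) ≤ 1 - (y / x)⁻¹ := by
        rw [inv_div, show 1 - x / y = (y - x) / y by field_simp]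
        exact div_le_div_of_nonneg_left (by linarith) hy0 hy.2.le
      have h4 : y / x - 1 ≤ (y - x) / (1 + 1 / ((i : ℝ) + 1)) := by
        rw [show y / x - 1 = (y - x) / x by field_simp]
        exact div_le_div_of_nonneg_left (by linarith) (by linarith) hx.1.le
      constructor
      · have h5 := mul_le_mul_of_nonneg_left (h3.trans h1) (show (0 : ℝ) ≤ n by positivity)
        calc (n : ℝ) / (i + 3) * (y - x) = n * ((y - x) / (i + 3)) := by ring
          _ ≤ n * (Real.log y - Real.log x) := h5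
          _ = n * Real.log y - n * Real.log x := by ring
      · have h5 := mul_le_mul_of_nonneg_left (h2.trans h4) (show (0 : ℝ) ≤ n by positivity)
        calc n * Real.log y - n * Real.log x = n * (Real.log y - Real.log x) := by ring
          _ ≤ n * ((y - x) / (1 + 1 / ((i : ℝ) + 1))) := h5
          _ = ((i : ℝ) + 3) / (1 + 1 / ((i : ℝ) + 1)) * (n / (i + 3)) * (y - x) := by
              field_simp
    · intro x hx
      exact tendsto_pow_atTop_atTop_of_one_lt (by linarith [hx.1])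
  filter_upwards [main] with α hα hα1
  obtain ⟨i, hi⟩ := exists_nat_one_div_lt (show (0 : ℝ) < α - 1 by linarith)
  obtain ⟨j, hj⟩ := exists_nat_gt α
  apply hα (max i j)
  constructor
  · have h1 : (1 : ℝ) / ((max i j : ℕ) + 1) ≤ 1 / (i + 1) := by
      apply div_le_div_of_nonneg_left zero_le_one (by positivity)
      have : (i : ℝ) ≤ (max i j : ℕ) := by exact_mod_cast le_max_left _ _
      linarith
    linarith
  · have : (j : ℝ) ≤ (max i j : ℕ) := by exact_mod_cast le_max_right _ _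
    linarith

open Classical in
lemma Dens.infinite {M T : Set ℕ} (hM : M.Infinite) {ε : ℝ} (hε : ε < 1) (h : Dens M T ε) :
    T.Infinite := by
  intro hT
  obtain ⟨k, hk⟩ := exists_nat_gt ((hT.toFinset.card : ℝ) / (1 - ε))
  obtain ⟨u, hu, huk⟩ := hM.exists_subset_card_eq k
  obtain ⟨N, hN, hle⟩ := h (u.sup id + 1)
  rw [TH463.UR.card_setOf, TH463.UR.card_setOf] at hle
  have h1 : u ⊆ (range N).filter fun n => n ∈ M := by
    intro n hn
    rw [mem_filter, mem_range]
    have h7 : n ≤ u.sup id := le_sup (f := id) hn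
    exact ⟨by omega, hu hn⟩
  have h2 : ((range N).filter fun n => n ∈ T) ⊆ hT.toFinset := by
    intro n hn
    exact hT.mem_toFinset.2 (mem_filter.1 hn).2
  have h3 : (k : ℝ) ≤ (((range N).filter fun n => n ∈ M).card : ℝ) := by
    rw [← huk]
    exact_mod_cast card_le_card h1
  have h4 : (((range N).filter fun n => n ∈ T).card : ℝ) ≤ hT.toFinset.card := by
    exact_mod_cast card_le_card h2
  rw [div_lt_iff₀ (by linarith)] at hk
  have h5 := mul_le_mul_of_nonneg_left h3 (show 0 ≤ 1 - ε by linarith)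
  linarith

/-- rigidity along the powers of almost every real number -/
theorem powers_rigid {M : Set ℕ} (hM : M.Infinite) : ∀ᵐ α : ℝ, 1 < α → ∀ p : ℕ, 2 ≤ p →
    ∀ μ : Measure UnitAddCircle, IsProbabilityMeasure μ →
      MeasurePreserving (fun x : UnitAddCircle => p • x) μ μ → (∀ x, μ {x} = 0) →
      (∀ n ∈ M, MeasurePreserving (fun x : UnitAddCircle => ⌊α ^ n⌋₊ • x) μ μ) → μ = volume := by
  filter_upwards [powers hM] with α hα h1 p hp μ hμ hinv hat hMi
  obtain ⟨T, hTM, hT, hU⟩ := hα h1 (1 / 2) (by norm_num)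
  have hTi := hT.infinite hM (by norm_num)
  exact (((hU p hp μ hμ hinv hat).2 T subset_rfl hTi).2 μ hμ fun n hn => hMi n (hTM hn)).2
    Measure.AbsolutelyContinuous.rfl

end Pool.Agent.Helper99.AE
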