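import Mathlib

/-!
The strong law of large numbers for pairwise independent events.
-/

set_option autoImplicit false

open MeasureTheory Filter Topology Finset

namespace Pool.Agent.Helper99.AE

variable {Ω : Type*} [MeasurableSpace Ω] {P : Measure Ω} [IsProbabilityMeasure P]

/-- the counting function -/
noncomputable def cnt (E : ℕ → Set Ω) (F : Finset ℕ) (ω : Ω) : ℝ :=
  ∑ n ∈ F, (E n).indicator (fun _ => (1 : ℝ)) ω

lemma var_le {E : ℕ → Set Ω} (hE : ∀ n, MeasurableSet (E n)) {F : Finset ℕ}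
    (hind : ∀ m ∈ F, ∀ n ∈ F, m ≠ n → P (E m ∩ E n) = P (E m) * P (E n)) :
    ∫ ω, (cnt E F ω - ∑ n ∈ F, P.real (E n)) ^ 2 ∂P ≤ ∑ n ∈ F, P.real (E n) := by
  have hint : ∀ n, Integrable ((E n).indicator (fun _ => (1 : ℝ))) P := fun n =>
    (integrable_const (1 : ℝ)).indicator (hE n)
  set Y : ℕ → Ω → ℝ := fun n ω => (E n).indicator (fun _ => (1 : ℝ)) ω - P.real (E n) with hY
  have e1 : ∀ ω, (cnt E F ω - ∑ n ∈ F, P.real (E n)) ^ 2 = ∑ m ∈ F, ∑ n ∈ F, Y m ω * Y n ω := by
    intro ω
    rw [← sum_mul_sum, pow_two]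
    simp only [hY, cnt, sum_sub_distrib]
  have e2 : ∀ m n, ∀ ω, Y m ω * Y n ω = (E m ∩ E n).indicator (fun _ => (1 : ℝ)) ω -
      P.real (E n) * (E m).indicator (fun _ => (1 : ℝ)) ω -
      P.real (E m) * (E n).indicator (fun _ => (1 : ℝ)) ω + P.real (E m) * P.real (E n) := by
    intro m n ω
    simp only [hY]
    by_cases h1 : ω ∈ E m <;> by_cases h2 : ω ∈ E n <;> simp [h1, h2] <;> ring
  have hint2 : ∀ m n, Integrable (fun ω => Y m ω * Y n ω) P := by
    intro m n
    simp only [e2]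
    exact (((((integrable_const (1 : ℝ)).indicator ((hE m).inter (hE n))).sub
      ((hint m).const_mul _)).sub ((hint n).const_mul _)).add (integrable_const _))
  have e3 : ∀ m n, ∫ ω, Y m ω * Y n ω ∂P = P.real (E m ∩ E n) - P.real (E m) * P.real (E n) := by
    intro m n
    simp only [e2]
    have i1 : Integrable (fun ω => (E m ∩ E n).indicator (fun _ => (1 : ℝ)) ω) P :=
      (integrable_const (1 : ℝ)).indicator ((hE m).inter (hE n))
    have i2 : Integrable (fun ω => P.real (E n) * (E m).indicator (fun _ => (1 : ℝ)) ω) P :=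
      (hint m).const_mul _
    have i3 : Integrable (fun ω => P.real (E m) * (E n).indicator (fun _ => (1 : ℝ)) ω) P :=
      (hint n).const_mul _
    have i4 : Integrable (fun ω => (E m ∩ E n).indicator (fun _ => (1 : ℝ)) ω -
        P.real (E n) * (E m).indicator (fun _ => (1 : ℝ)) ω) P := i1.sub i2
    have i5 : Integrable (fun ω => (E m ∩ E n).indicator (fun _ => (1 : ℝ)) ω -
        P.real (E n) * (E m).indicator (fun _ => (1 : ℝ)) ω -
        P.real (E m) * (E n).indicator (fun _ => (1 : ℝ)) ω) P := i4.sub i3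
    rw [integral_add i5 (integrable_const _), integral_sub i4 i3,
      integral_sub i1 i2, integral_const_mul, integral_const_mul,
      integral_indicator_const _ (hE m), integral_indicator_const _ (hE n),
      integral_indicator_const _ ((hE m).inter (hE n))]
    simp
    ring
  have e4 : ∫ ω, (cnt E F ω - ∑ n ∈ F, P.real (E n)) ^ 2 ∂P =
      ∑ m ∈ F, ∑ n ∈ F, (P.real (E m ∩ E n) - P.real (E m) * P.real (E n)) := by
    simp only [e1]
    rw [integral_finsetSum _ fun m _ => integrable_finsetSum _ fun n _ => hint2 m n]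
    apply sum_congr rfl
    intro m _
    rw [integral_finsetSum _ fun n _ => hint2 m n]
    exact sum_congr rfl fun n _ => e3 m n
  rw [e4]
  apply sum_le_sum
  intro m hm
  rw [sum_eq_single m]
  · rw [Set.inter_self]
    have := mul_nonneg (measureReal_nonneg (μ := P) (s := E m)) (measureReal_nonneg (μ := P) (s := E m))
    linarith
  · intro n hn hnm
    rw [measureReal_def, hind m hm n hn (Ne.symm hnm), ENNReal.toReal_mul]
    simp [measureReal_def]
  · intro h
    exact absurd hm h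

lemma cheb {E : ℕ → Set Ω} (hE : ∀ n, MeasurableSet (E n)) {F : Finset ℕ}
    (hind : ∀ m ∈ F, ∀ n ∈ F, m ≠ n → P (E m ∩ E n) = P (E m) * P (E n)) {t : ℝ} (ht : 0 < t) :
    P.real {ω | t ≤ |cnt E F ω - ∑ n ∈ F, P.real (E n)|} ≤ (∑ n ∈ F, P.real (E n)) / t ^ 2 := by
  have hm : Measurable (cnt E F) := by
    unfold cnt
    exact Finset.measurable_sum _ fun n _ => measurable_const.indicator (hE n)
  have hb : ∀ ω, |cnt E F ω| ≤ F.card := by
    classical
    intro ω
    unfold cnt
    refine (abs_sum_le_sum_abs _ _).trans ?_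
    refine (sum_le_sum (g := fun _ => (1 : ℝ)) fun n _ => ?_).trans (by simp)
    rw [Set.indicator_apply]
    split_ifs <;> simp
  have hint : Integrable (fun ω => (cnt E F ω - ∑ n ∈ F, P.real (E n)) ^ 2) P := by
    apply Integrable.of_bound (C := (F.card + |∑ n ∈ F, P.real (E n)|) ^ 2)
      ((hm.sub_const _).pow_const 2).aestronglyMeasurable
    refine Eventually.of_forall fun ω => ?_
    rw [Real.norm_eq_abs, abs_pow]
    apply pow_le_pow_left₀ (abs_nonneg _)
    refine (abs_sub _ _).trans ?_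
    have := hb ω
    linarith
  have h1 := mul_meas_ge_le_integral_of_nonneg (μ := P)
    (f := fun ω => (cnt E F ω - ∑ n ∈ F, P.real (E n)) ^ 2)
    (Eventually.of_forall fun ω => by positivity) hint (t ^ 2)
  have h2 := h1.trans (var_le hE hind)
  rw [le_div_iff₀ (by positivity), mul_comm]
  refine le_trans (le_of_eq ?_) h2
  congr 3
  ext ω
  exact ⟨fun h => by
    rw [← sq_abs (cnt E F ω - _)]
    exact pow_le_pow_left₀ ht.le h 2, fun h => by
    rw [← sq_abs (cnt E F ω - _)] at h
    exact (pow_le_pow_iff_left₀ ht.le (abs_nonneg _) two_ne_zero).1 h⟩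

omit [MeasurableSpace Ω] in
lemma cnt_mono {E : ℕ → Set Ω} {F G : Finset ℕ} (h : F ⊆ G) (ω : Ω) : cnt E F ω ≤ cnt E G ω := by
  classical
  apply sum_le_sum_of_subset_of_nonneg h
  intro n _ _
  rw [Set.indicator_apply]
  split_ifs <;> simp

open Classical in
/-- relative Abel summation -/
lemma abel_rel {A B : Set ℕ} {η : ℝ} (hA : ∀ N : ℕ, (((range N).filter (fun c => c ∈ A)).card : ℝ) ≤
    η * (((range N).filter (fun c => c ∈ B)).card : ℝ))
    {w : ℕ → ℝ} (hw : Antitone w) (h0 : ∀ k, 0 ≤ w k) (N : ℕ) :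
    ∑ k ∈ (range N).filter (fun c => c ∈ A), w k ≤
      η * ∑ k ∈ (range N).filter (fun c => c ∈ B), w k := by
  have hcard : ∀ (D : Set ℕ) (N : ℕ), (((range (N + 1)).filter (fun c => c ∈ D)).card : ℝ) =
      ((range N).filter (fun c => c ∈ D)).card + (if N ∈ D then (1 : ℝ) else 0) := by
    intro D N
    rw [range_add_one, filter_insert]
    split_ifs with h
    · rw [card_insert_of_notMem (by simp)]
      push_cast
      ring
    · simp
  have key : ∀ N : ℕ, ∑ k ∈ range N, ((if k ∈ A then (1 : ℝ) else 0) -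
      η * (if k ∈ B then (1 : ℝ) else 0)) * w k ≤
      ((((range N).filter (fun c => c ∈ A)).card : ℝ) -
        η * (((range N).filter (fun c => c ∈ B)).card : ℝ)) * w N := by
    intro N
    induction N with
    | zero => simp
    | succ N ih =>
      rw [sum_range_succ]
      have h1 := hA (N + 1)
      have h2 : w (N + 1) ≤ w N := hw (Nat.le_succ N)
      rw [hcard A, hcard B] at h1 ⊢
      nlinarith
  have h3 := key N
  have h4 := hA N
  have h5 : ((((range N).filter (fun c => c ∈ A)).card : ℝ) -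
        η * (((range N).filter (fun c => c ∈ B)).card : ℝ)) * w N ≤ 0 :=
    mul_nonpos_of_nonpos_of_nonneg (by linarith) (h0 N)
  have h6 : ∑ k ∈ range N, ((if k ∈ A then (1 : ℝ) else 0) -
      η * (if k ∈ B then (1 : ℝ) else 0)) * w k =
      ∑ k ∈ (range N).filter (fun c => c ∈ A), w k -
        η * ∑ k ∈ (range N).filter (fun c => c ∈ B), w k := by
    rw [mul_sum, sum_filter, sum_filter, ← sum_sub_distrib]
    apply sum_congr rfl
    intro k _
    split_ifs <;> ring
  linarith

open Classical in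
/-- a strong law of large numbers for pairwise independent events -/
lemma slln {E : ℕ → Set Ω} (hE : ∀ n, MeasurableSet (E n)) {B D : Set ℕ} (hDB : D ⊆ B)
    (hind : ∀ m ∈ B, ∀ n ∈ B, m ≠ n → P (E m ∩ E n) = P (E m) * P (E n)) {η : ℝ} (hη : 0 < η)
    (hD : ∀ N : ℕ, ∑ n ∈ (range N).filter (fun n => n ∈ D), P.real (E n) ≤
      η * ∑ n ∈ (range N).filter (fun n => n ∈ B), P.real (E n))
    (hB : Tendsto (fun N : ℕ => ∑ n ∈ (range N).filter (fun n => n ∈ B), P.real (E n)) atTop atTop) :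
    ∀ᵐ ω ∂P, Tendsto (fun N : ℕ => cnt E ((range N).filter (fun n => n ∈ B)) ω) atTop atTop ∧
      ∀ᶠ N : ℕ in atTop, cnt E ((range N).filter (fun n => n ∈ D)) ω ≤
        8 * η * cnt E ((range N).filter (fun n => n ∈ B)) ω := by
  set F : Set ℕ → ℕ → Finset ℕ := fun S N => (range N).filter (fun n => n ∈ S) with hF
  set A : Set ℕ → ℕ → ℝ := fun S N => ∑ n ∈ F S N, P.real (E n) with hA
  have hFmono : ∀ S, Monotone (F S) := fun S a b hab => filter_subset_filter _ (range_mono hab)
  have hAmono : ∀ S, Monotone (A S) := fun S a b hab =>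
    sum_le_sum_of_subset_of_nonneg (hFmono S hab) fun _ _ _ => measureReal_nonneg
  have hA0 : ∀ S N, 0 ≤ A S N := fun S N => sum_nonneg fun _ _ => measureReal_nonneg
  have hstep : ∀ N, A B (N + 1) ≤ A B N + 1 := by
    intro N
    simp only [hA, hF]
    rw [range_add_one, filter_insert]
    split_ifs with h
    · rw [sum_insert (by simp), add_comm]
      have := measureReal_le_one (μ := P) (s := E N)
      linarith
    · linarith
  have hex : ∀ k : ℕ, ∃ N, (k : ℝ) ^ 2 ≤ A B N := fun k => (hB.eventually_ge_atTop _).exists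
  set s : ℕ → ℕ := fun k => Nat.find (hex k) with hs
  have hs1 : ∀ k : ℕ, (k : ℝ) ^ 2 ≤ A B (s k) := fun k => Nat.find_spec (hex k)
  have hs2 : ∀ k : ℕ, A B (s k) ≤ (k : ℝ) ^ 2 + 1 := by
    intro k
    rcases Nat.eq_zero_or_pos (s k) with h | h
    · rw [h]
      have : A B 0 = 0 := by simp [hA, hF]
      rw [this]
      positivity
    · obtain ⟨j, hj⟩ := Nat.exists_eq_succ_of_ne_zero h.ne'
      have h1 : ¬ (k : ℝ) ^ 2 ≤ A B j := Nat.find_min (hex k) (by
        have : j < s k := by omega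
        exact this)
      rw [hj]
      have h2 := hstep j
      rw [Nat.succ_eq_add_one]
      linarith
  -- the bad events
  have hindF : ∀ S : Set ℕ, S ⊆ B → ∀ N, ∀ m ∈ F S N, ∀ n ∈ F S N, m ≠ n →
      P (E m ∩ E n) = P (E m) * P (E n) := by
    intro S hS N m hm n hn hmn
    exact hind m (hS (mem_filter.1 hm).2) n (hS (mem_filter.1 hn).2) hmn
  set U : ℕ → Set Ω := fun k => {ω | A B (s (k + 1)) / 2 ≤ |cnt E (F B (s (k + 1))) ω -
    A B (s (k + 1))|} with hU
  set V : ℕ → Set Ω := fun k => {ω | η * A B (s (k + 1)) ≤ |cnt E (F D (s (k + 1))) ω -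
    A D (s (k + 1))|} with hV
  have hAp : ∀ k : ℕ, 0 < A B (s (k + 1)) := by
    intro k
    refine lt_of_lt_of_le ?_ (hs1 (k + 1))
    positivity
  have hUp : ∀ k, P.real (U k) ≤ 4 * (1 / ((k : ℝ) + 1) ^ 2) := by
    intro k
    refine (cheb hE (hindF B subset_rfl _) (half_pos (hAp k))).trans ?_
    have h1 := hs1 (k + 1)
    push_cast at h1
    have h2 := hAp k
    change A B (s (k + 1)) / (A B (s (k + 1)) / 2) ^ 2 ≤ _
    rw [show A B (s (k + 1)) / (A B (s (k + 1)) / 2) ^ 2 = 4 * (1 / A B (s (k + 1))) by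
      field_simp
      norm_num]
    apply mul_le_mul_of_nonneg_left _ (by norm_num)
    exact one_div_le_one_div_of_le (by positivity) h1
  have hVp : ∀ k, P.real (V k) ≤ 1 / η * (1 / ((k : ℝ) + 1) ^ 2) := by
    intro k
    refine (cheb hE (hindF D hDB _) (mul_pos hη (hAp k))).trans ?_
    have h1 := hs1 (k + 1)
    push_cast at h1
    have h2 := hAp k
    have h3 : A D (s (k + 1)) ≤ η * A B (s (k + 1)) := hD _
    change A D (s (k + 1)) / (η * A B (s (k + 1))) ^ 2 ≤ _
    calc A D (s (k + 1)) / (η * A B (s (k + 1))) ^ 2 ≤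
          (η * A B (s (k + 1))) / (η * A B (s (k + 1))) ^ 2 :=
          div_le_div_of_nonneg_right h3 (by positivity)
      _ = 1 / η * (1 / A B (s (k + 1))) := by
          field_simp
      _ ≤ _ := by
          apply mul_le_mul_of_nonneg_left _ (by positivity)
          exact one_div_le_one_div_of_le (by positivity) h1
  have hsum : Summable fun k : ℕ => 1 / ((k : ℝ) + 1) ^ 2 := by
    have h1 : Summable fun k : ℕ => 1 / (k : ℝ) ^ 2 := Real.summable_one_div_nat_pow.2 (by norm_num)
    have h2 := (summable_nat_add_iff 1).2 h1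
    refine h2.congr fun k => ?_
    push_cast
    rfl
  have hfin : ∀ (W : ℕ → Set Ω) (c : ℝ), (∀ k, P.real (W k) ≤ c * (1 / ((k : ℝ) + 1) ^ 2)) →
      ∑' k, P (W k) ≠ ⊤ := by
    intro W c hW
    have h1 : ∀ k, P (W k) ≤ ENNReal.ofReal (c * (1 / ((k : ℝ) + 1) ^ 2)) := by
      intro k
      rw [← ofReal_measureReal (measure_ne_top P (W k))]
      exact ENNReal.ofReal_le_ofReal (hW k)
    refine ne_top_of_le_ne_top ?_ (ENNReal.tsum_le_tsum h1)
    exact (hsum.mul_left c).tsum_ofReal_ne_top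
  have hbc1 := ae_eventually_notMem (hfin U _ hUp)
  have hbc2 := ae_eventually_notMem (hfin V _ hVp)
  filter_upwards [hbc1, hbc2] with ω h1 h2
  obtain ⟨k₀, hk₀⟩ := eventually_atTop.1 (h1.and h2)
  -- the estimates along the subsequence
  have hlow : ∀ k, k₀ ≤ k → A B (s (k + 1)) / 2 < cnt E (F B (s (k + 1))) ω := by
    intro k hk
    have h3 := (hk₀ k hk).1
    simp only [hU, Set.mem_ofPred_eq, not_le] at h3
    have h4 := neg_abs_le (cnt E (F B (s (k + 1))) ω - A B (s (k + 1)))
    linarith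
  have hup : ∀ k, k₀ ≤ k → cnt E (F D (s (k + 1))) ω < 2 * η * A B (s (k + 1)) := by
    intro k hk
    have h3 := (hk₀ k hk).2
    simp only [hV, Set.mem_ofPred_eq, not_le] at h3
    have h4 := le_abs_self (cnt E (F D (s (k + 1))) ω - A D (s (k + 1)))
    have h5 : A D (s (k + 1)) ≤ η * A B (s (k + 1)) := hD _
    linarith
  have hloc : ∀ N, s (max k₀ 3 + 1) ≤ N → ∃ k, max k₀ 3 ≤ k ∧ s (k + 1) ≤ N ∧ N ≤ s (k + 2) ∧
      A B N < ((k : ℝ) + 2) ^ 2 := by
    intro N hN
    have hAN : ((max k₀ 3 + 1 : ℕ) : ℝ) ^ 2 ≤ A B N := (hs1 _).trans (hAmono B hN)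
    set r := ⌊Real.sqrt (A B N)⌋₊ with hr
    have hr1 : (r : ℝ) ≤ Real.sqrt (A B N) := Nat.floor_le (Real.sqrt_nonneg _)
    have hr2 : Real.sqrt (A B N) < r + 1 := Nat.lt_floor_add_one _
    have hr3 : max k₀ 3 + 1 ≤ r := by
      apply Nat.le_floor
      exact Real.le_sqrt_of_sq_le hAN
    have hr4 : (r : ℝ) ^ 2 ≤ A B N := by
      have := pow_le_pow_left₀ (Nat.cast_nonneg r) hr1 2
      rwa [Real.sq_sqrt (hA0 B N)] at this
    have hr5 : A B N < ((r : ℝ) + 1) ^ 2 := by
      have := pow_lt_pow_left₀ hr2 (Real.sqrt_nonneg _) two_ne_zero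
      rwa [Real.sq_sqrt (hA0 B N)] at this
    refine ⟨r - 1, by omega, ?_, ?_, ?_⟩
    · rw [Nat.sub_add_cancel (by omega)]
      exact Nat.find_min' (hex r) hr4
    · have h6 : r - 1 + 2 = r + 1 := by omega
      rw [h6]
      by_contra hcon
      have h7 := (hs1 (r + 1)).trans (hAmono B (not_le.1 hcon).le)
      push_cast at h7
      linarith
    · have h8 : ((r - 1 : ℕ) : ℝ) + 2 = r + 1 := by
        rw [Nat.cast_sub (by omega)]
        push_cast
        ring
      rw [h8]
      exact hr5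
  constructor
  · refine tendsto_atTop_mono' atTop ?_ (hB.atTop_div_const (show (0 : ℝ) < 8 by norm_num))
    filter_upwards [eventually_ge_atTop (s (max k₀ 3 + 1))] with N hN
    obtain ⟨k, hk, hk1, hk2, hk3⟩ := hloc N hN
    have h3 := hlow k ((le_max_left _ _).trans hk)
    have h4 := cnt_mono (E := E) (hFmono B hk1) ω
    have h5 := hs1 (k + 1)
    push_cast at h5
    have hk' : (3 : ℝ) ≤ k := by exact_mod_cast (le_max_right _ _).trans hk
    change A B N / 8 ≤ cnt E (F B N) ω
    nlinarith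
  · filter_upwards [eventually_ge_atTop (s (max k₀ 3 + 1))] with N hN
    obtain ⟨k, hk, hk1, hk2, hk3⟩ := hloc N hN
    have h3 := hlow k ((le_max_left _ _).trans hk)
    have h4 := cnt_mono (E := E) (hFmono B hk1) ω
    have h5 := hs1 (k + 1)
    have h6 := hup (k + 1) (by have := (le_max_left _ _).trans hk; omega)
    have h7 := cnt_mono (E := E) (hFmono D hk2) ω
    have h8 := hs2 (k + 1 + 1)
    push_cast at h5 h8
    have hk' : (3 : ℝ) ≤ k := by exact_mod_cast (le_max_right _ _).trans hk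
    change cnt E (F D N) ω ≤ 8 * η * cnt E (F B N) ω
    have h9 : cnt E (F D N) ω ≤ 2 * η * (((k : ℝ) + 1 + 1) ^ 2 + 1) :=
      h7.trans (h6.le.trans (mul_le_mul_of_nonneg_left h8 (by positivity)))
    have h10 : ((k : ℝ) + 1) ^ 2 / 2 ≤ cnt E (F B N) ω := by linarith
    have h11 : ((k : ℝ) + 1 + 1) ^ 2 + 1 ≤ 2 * ((k : ℝ) + 1) ^ 2 := by nlinarith
    have h12 := mul_le_mul_of_nonneg_left h11 (show 0 ≤ 2 * η by positivity)
    have h13 := mul_le_mul_of_nonneg_left h10 (show 0 ≤ 8 * η by positivity)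
    linarith

end Pool.Agent.Helper99.AE
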