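import Pool.Agent.Helper99.AE.Univ
import Pool.Agent.Helper99.AE.Rand

/-!
Random sets of primes and random primes.
-/

set_option autoImplicit false

open MeasureTheory Filter Topology Finset
open scoped ENNReal

namespace Pool.Agent.Helper99.AE

open Pool.Agent.TH463.UR

open Classical in
/-- the universal subsets of `B` -/
def HasUniv (B : Set ℕ) : Prop := ∀ η : ℝ, 0 < η → ∃ C D : Set ℕ, D = B \ C ∧
    (∀ N : ℕ, (((range N).filter (fun c => c ∈ D)).card : ℝ) ≤
      η * (((range N).filter (fun c => c ∈ B)).card : ℝ)) ∧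
    ∀ p : ℕ, 2 ≤ p → ∀ μ : Measure UnitAddCircle, IsProbabilityMeasure μ →
      MeasurePreserving (fun x : UnitAddCircle => p • x) μ μ → (∀ x, μ {x} = 0) → Mixing C μ

lemma hasUniv_of_natCard {B : Set ℕ} (h : ∀ η : ℝ, 0 < η → ∃ C : Set ℕ,
    (∀ N : ℕ, (Nat.card {c : ℕ | c < N ∧ c ∈ B \ C} : ℝ) ≤
      η * (Nat.card {c : ℕ | c < N ∧ c ∈ B} : ℝ)) ∧
    ∀ p : ℕ, 2 ≤ p → ∀ μ : Measure UnitAddCircle, IsProbabilityMeasure μ →
      MeasurePreserving (fun x : UnitAddCircle => p • x) μ μ → (∀ x, μ {x} = 0) → Mixing C μ) :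
    HasUniv B := by
  classical
  intro η hη
  obtain ⟨C, h1, h2⟩ := h η hη
  refine ⟨C, B \ C, rfl, fun N => ?_, h2⟩
  have h3 := h1 N
  generalize B \ C = D at h3 ⊢
  rw [card_setOf N (fun c => c ∈ D), card_setOf N (fun c => c ∈ B)] at h3
  convert h3

lemma hasUniv_univ : HasUniv Set.univ := by
  classical
  apply hasUniv_of_natCard
  intro η hη
  obtain ⟨C, h1, h2⟩ := exists_C hη
  refine ⟨C, fun N => ?_, h2⟩
  have h3 := h1 N
  have e1 : Nat.card {c : ℕ | c < N ∧ c ∈ Set.univ \ C} =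
      ((range N).filter fun c => c ∈ Cᶜ).card := by
    have e0 : {c : ℕ | c < N ∧ c ∈ Set.univ \ C} = {c : ℕ | c < N ∧ c ∈ Cᶜ} := by
      ext c
      simp
    rw [← card_setOf, e0]
  have e2 : Nat.card {c : ℕ | c < N ∧ c ∈ (Set.univ : Set ℕ)} = N := by
    rw [card_setOf]
    simp
  rw [e1, e2]
  convert h3

lemma hasUniv_primes : HasUniv {ℓ : ℕ | ℓ.Prime} := by
  apply hasUniv_of_natCard
  intro η hη
  obtain ⟨C, -, h1, h2⟩ := TH463.UR.primes hη
  exact ⟨C, fun N => h1 N, h2⟩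

variable {Ω : Type*} [MeasurableSpace Ω] {P : Measure Ω} [IsProbabilityMeasure P]

omit [MeasurableSpace Ω] in
lemma cnt_eq (E : ℕ → Set Ω) (F : Finset ℕ) (ω : Ω) [DecidablePred fun n => ω ∈ E n] :
    cnt E F ω = ((F.filter fun n => ω ∈ E n).card : ℝ) := by
  classical
  unfold cnt
  rw [card_filter]
  push_cast
  apply sum_congr rfl
  intro n _
  rw [Set.indicator_apply]

/-- `T` has relative lower density at least `1 - ε` in `S` -/
def Low (S T : Set ℕ) (ε : ℝ) : Prop :=
  ∀ᶠ N : ℕ in atTop, (1 - ε) * (Nat.card {n : ℕ | n < N ∧ n ∈ S} : ℝ) ≤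
    (Nat.card {n : ℕ | n < N ∧ n ∈ T} : ℝ)

open Classical in
/-- **Random sets.** -/
theorem random_sets {B : Set ℕ} (hBu : HasUniv B) {S : Ω → Set ℕ} (hS : ∀ ω, S ω ⊆ B)
    (hm : ∀ n, MeasurableSet {ω | n ∈ S ω})
    (hind : ∀ m ∈ B, ∀ n ∈ B, m ≠ n →
      P ({ω | m ∈ S ω} ∩ {ω | n ∈ S ω}) = P {ω | m ∈ S ω} * P {ω | n ∈ S ω})
    {p : ℕ → ℝ} (hp : Antitone p) (hpP : ∀ n ∈ B, P.real {ω | n ∈ S ω} = p n)
    (hdiv : ¬ Summable fun n : B => p n) :
    ∀ᵐ ω ∂P, (S ω).Infinite ∧ ∀ ε : ℝ, 0 < ε → ∃ T : Set ℕ, T ⊆ S ω ∧ Low (S ω) T ε ∧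
      Universal (fun n => n) T := by
  set E : ℕ → Set Ω := fun n => {ω | n ∈ S ω} with hE
  have hp0 : ∀ n, 0 ≤ p n := by
    intro n
    by_contra hcon
    have hBfin : B ⊆ (range n : Set ℕ) := by
      intro m hm'
      by_contra h1
      rw [mem_coe, mem_range, not_lt] at h1
      have h2 := hp h1
      have h3 : 0 ≤ p m := by
        rw [← hpP m hm']
        exact measureReal_nonneg
      linarith [not_le.1 hcon]
    have : Finite B := (finite_toSet _).subset hBfin
    exact hdiv (Summable.of_finite)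
  have hB : Tendsto (fun N : ℕ => ∑ n ∈ (range N).filter (fun n => n ∈ B), P.real (E n)) atTop
      atTop := by
    have h1 : ¬ Summable (B.indicator p) := by
      rwa [← summable_subtype_iff_indicator]
    have h2 : ∀ n, 0 ≤ B.indicator p n := fun n => Set.indicator_nonneg (fun n _ => hp0 n) n
    have h3 := (not_summable_iff_tendsto_nat_atTop_of_nonneg h2).1 h1
    refine h3.congr fun N => ?_
    rw [sum_filter]
    apply sum_congr rfl
    intro n _
    rw [Set.indicator_apply]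
    split_ifs with h
    · exact (hpP n h).symm
    · rfl
  choose C D hCD hC1 hC2 using fun j : ℕ => hBu (1 / (8 * ((j : ℝ) + 1))) (by positivity)
  have hall : ∀ᵐ ω ∂P, ∀ j : ℕ,
      Tendsto (fun N : ℕ => cnt E ((range N).filter (fun n => n ∈ B)) ω) atTop atTop ∧
      ∀ᶠ N : ℕ in atTop, cnt E ((range N).filter (fun n => n ∈ D j)) ω ≤
        8 * (1 / (8 * ((j : ℝ) + 1))) * cnt E ((range N).filter (fun n => n ∈ B)) ω := by
    rw [ae_all_iff]
    intro j
    have hDB : D j ⊆ B := by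
      rw [hCD j]
      exact Set.sdiff_subset
    refine slln hm hDB hind (by positivity) (fun N => ?_) hB
    have h1 := abel_rel (hC1 j) hp hp0 N
    have h2 : ∑ n ∈ (range N).filter (fun n => n ∈ D j), P.real (E n) =
        ∑ n ∈ (range N).filter (fun n => n ∈ D j), p n :=
      sum_congr rfl fun n hn => hpP n (hDB (mem_filter.1 hn).2)
    have h3 : ∑ n ∈ (range N).filter (fun n => n ∈ B), P.real (E n) =
        ∑ n ∈ (range N).filter (fun n => n ∈ B), p n :=
      sum_congr rfl fun n hn => hpP n (mem_filter.1 hn).2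
    rw [h2, h3]
    exact h1
  filter_upwards [hall] with ω hω
  have hcB : ∀ N, cnt E ((range N).filter (fun n => n ∈ B)) ω =
      (((range N).filter fun n => n ∈ S ω).card : ℝ) := by
    intro N
    rw [cnt_eq, filter_filter]
    congr 2
    ext n
    simp only [mem_filter, hE, Set.mem_ofPred_eq]
    constructor
    · rintro ⟨h1, -, h2⟩
      exact ⟨h1, h2⟩
    · rintro ⟨h1, h2⟩
      exact ⟨h1, hS ω h2, h2⟩
  refine ⟨?_, fun ε hε => ?_⟩
  · intro hfin
    have h1 := (hω 0).1.eventually_gt_atTop (hfin.toFinset.card : ℝ)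
    obtain ⟨N, hN⟩ := h1.exists
    rw [hcB N] at hN
    have h2 : ((range N).filter fun n => n ∈ S ω) ⊆ hfin.toFinset := by
      intro n hn
      exact hfin.mem_toFinset.2 (mem_filter.1 hn).2
    have h3 : (((range N).filter fun n => n ∈ S ω).card : ℝ) ≤ hfin.toFinset.card := by
      exact_mod_cast card_le_card h2
    linarith
  · obtain ⟨j, hj⟩ := exists_nat_one_div_lt hε
    refine ⟨S ω ∩ C j, Set.inter_subset_left, ?_, ?_⟩
    · filter_upwards [(hω j).2] with N hN
      rw [hcB N] at hN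
      have h1 : cnt E ((range N).filter (fun n => n ∈ D j)) ω =
          (((range N).filter fun n => n ∈ S ω ∧ n ∉ C j).card : ℝ) := by
        rw [cnt_eq, filter_filter]
        congr 2
        ext n
        simp only [mem_filter, hE, Set.mem_ofPred_eq, hCD j, Set.mem_sdiff]
        constructor
        · rintro ⟨h1, h2, h3⟩
          exact ⟨h1, h3, h2.2⟩
        · rintro ⟨h1, h2, h3⟩
          exact ⟨h1, ⟨hS ω h2, h3⟩, h2⟩
      rw [h1] at hN
      have e0 : Nat.card {n : ℕ | n < N ∧ n ∈ S ω ∩ C j} =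
          ((range N).filter fun n => n ∈ S ω ∧ n ∈ C j).card := by
        rw [← card_setOf]
        rfl
      rw [card_setOf N (fun n => n ∈ S ω), e0]
      have h2 := card_filter_add_card_filter_not (s := (range N).filter fun n => n ∈ S ω)
        (fun n => n ∈ C j)
      rw [filter_filter, filter_filter] at h2
      have h3 : (((range N).filter fun n => n ∈ S ω ∧ n ∈ C j).card : ℝ) +
          (((range N).filter fun n => n ∈ S ω ∧ n ∉ C j).card : ℝ) =
          (((range N).filter fun n => n ∈ S ω).card : ℝ) := by exact_mod_cast h2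
      have h4 : 8 * (1 / (8 * ((j : ℝ) + 1))) = 1 / (j + 1) := by field_simp
      rw [h4] at hN
      have h5 : 1 / ((j : ℝ) + 1) * (((range N).filter fun n => n ∈ S ω).card : ℝ) ≤
          ε * (((range N).filter fun n => n ∈ S ω).card : ℝ) :=
        mul_le_mul_of_nonneg_right hj.le (Nat.cast_nonneg _)
      linarith
    · apply universal_of_tendsto (hC2 j)
      · intro n hn
        exact hn.2
      · exact tendsto_id.mono_left inf_le_left

open Classical in
/-- the probability that a random element of `B` with dominated law lies in a small subset -/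
lemma prob_mem_rel {A B : Set ℕ} (hAB : A ⊆ B) {η : ℝ} (hη : 0 ≤ η)
    (hA : ∀ N : ℕ, (((range N).filter (fun c => c ∈ A)).card : ℝ) ≤
      η * (((range N).filter (fun c => c ∈ B)).card : ℝ))
    {w : ℕ → ℝ} (hw : Antitone w) (h0 : ∀ k, 0 ≤ w k) {K : ℝ}
    (hK : ∀ N, ∑ k ∈ (range N).filter (fun c => c ∈ B), w k ≤ K)
    {c : Ω → ℕ} (hd : ∀ k ∈ B, P.real {ω | c ω = k} ≤ w k) :
    P.real {ω | c ω ∈ A} ≤ η * K := by
  have hmono : Monotone fun N : ℕ => {ω | c ω < N ∧ c ω ∈ A} := by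
    intro N M h ω hω
    exact ⟨lt_of_lt_of_le hω.1 h, hω.2⟩
  have hU : {ω | c ω ∈ A} = ⋃ N : ℕ, {ω | c ω < N ∧ c ω ∈ A} := by
    ext ω
    simp only [Set.mem_ofPred_eq, Set.mem_iUnion]
    constructor
    · intro h
      exact ⟨c ω + 1, Nat.lt_succ_self _, h⟩
    · rintro ⟨N, -, h⟩
      exact h
  have ht : Tendsto (fun N : ℕ => P.real {ω | c ω < N ∧ c ω ∈ A}) atTop
      (𝓝 (P.real {ω | c ω ∈ A})) := by
    rw [hU]
    exact (ENNReal.tendsto_toReal (measure_ne_top _ _)).comp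
      (tendsto_measure_iUnion_atTop hmono)
  refine le_of_tendsto ht (Eventually.of_forall fun N => ?_)
  have h1 : {ω | c ω < N ∧ c ω ∈ A} = ⋃ k ∈ (range N).filter (fun c => c ∈ A), {ω | c ω = k} := by
    ext ω
    simp
  rw [h1]
  refine (measureReal_biUnion_finset_le _ _).trans ?_
  refine (sum_le_sum fun k hk => hd k (hAB (mem_filter.1 hk).2)).trans
    ((abel_rel hA hw h0 N).trans ?_)
  exact mul_le_mul_of_nonneg_left (hK N) hη

open Classical in
/-- **Random elements of `B`.** -/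
theorem random_rel {B : Set ℕ} (hBu : HasUniv B) {M : Set ℕ} (hM : M.Infinite) {c : ℕ → Ω → ℕ}
    {w : ℕ → ℕ → ℝ} {K : ℝ} (hcB : ∀ n ω, c n ω ∈ B)
    (hd : ∀ᶠ n in atTop, AEMeasurable (c n) P ∧ Antitone (w n) ∧ (∀ k, 0 ≤ w n k) ∧
      (∀ N, ∑ k ∈ (range N).filter (fun k => k ∈ B), w n k ≤ K) ∧
        ∀ k ∈ B, P.real {ω | c n ω = k} ≤ w n k)
    (h0 : Tendsto (fun n => w n 0) atTop (𝓝 0)) :
    ∀ᵐ ω ∂P, ∀ ε : ℝ, 0 < ε → ∃ T : Set ℕ, T ⊆ M ∧ Dens M T ε ∧ Universal (fun n => c n ω) T := by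
  obtain ⟨n₀, hn₀⟩ := eventually_atTop.1 hd
  have hK0 : 0 ≤ K := by simpa using (hn₀ n₀ le_rfl).2.2.2.1 0
  obtain ⟨L, hL1, hL2⟩ := exists_thr (u := fun n => max (w n 0) (1 / ((n : ℝ) + 1)))
    (fun n => lt_max_of_lt_right (by positivity))
    (by simpa using h0.max (tendsto_one_div_add_atTop_nhds_zero_nat (𝕜 := ℝ)))
  choose C D' hCD hC1 hC2 using fun j : ℕ => hBu (1 / (j + 1)) (by positivity)
  -- measurable versions
  have hex : ∀ n, ∃ g : Ω → ℕ, Measurable g ∧ (n₀ ≤ n → c n =ᵐ[P] g) := by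
    intro n
    by_cases hn : n₀ ≤ n
    · exact ⟨(hn₀ n hn).1.mk, (hn₀ n hn).1.measurable_mk, fun _ => (hn₀ n hn).1.ae_eq_mk⟩
    · exact ⟨fun _ => 0, measurable_const, fun h => absurd h hn⟩
  choose g hgm hge using hex
  have hgP : ∀ n, n₀ ≤ n → ∀ A : Set ℕ, P.real {ω | g n ω ∈ A} = P.real {ω | c n ω ∈ A} := by
    intro n hn A
    apply measureReal_congr
    filter_upwards [hge n hn] with ω hω
    change (g n ω ∈ A) = (c n ω ∈ A)
    rw [hω]
  set D : ℕ → ℕ → Set Ω := fun j n => {ω | g n ω ∉ C j ∨ g n ω < L n} with hD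
  have hDm : ∀ j n, MeasurableSet (D j n) := fun j n =>
    (hgm n) (MeasurableSet.of_discrete (s := {k : ℕ | k ∉ C j ∨ k < L n}))
  have hDp : ∀ j n, n₀ ≤ n → P.real (D j n) ≤ 1 / (j + 1) * K + L n * w n 0 := by
    intro j n hn
    obtain ⟨-, hw, hw0, hK, hdk⟩ := hn₀ n hn
    have h1 : D j n = {ω | g n ω ∈ {k | k ∉ C j ∨ k < L n}} := rfl
    rw [h1, hgP n hn]
    have h2 : {ω | c n ω ∈ {k | k ∉ C j ∨ k < L n}} ⊆ {ω | c n ω ∈ D' j} ∪ {ω | c n ω < L n} := by
      intro ω hω
      rcases hω with h | h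
      · left
        rw [hCD j]
        exact ⟨hcB n ω, h⟩
      · exact Or.inr h
    refine (measureReal_mono h2 (measure_ne_top _ _)).trans ?_
    refine (measureReal_union_le _ _).trans (add_le_add ?_ ?_)
    · have hDB : D' j ⊆ B := by
        rw [hCD j]
        exact Set.sdiff_subset
      exact prob_mem_rel hDB (by positivity) (hC1 j) hw hw0 hK hdk
    · have h3 : ∀ k, P.real {ω | c n ω = k} ≤ w n k := by
        intro k
        by_cases hk : k ∈ B
        · exact hdk k hk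
        · have : {ω | c n ω = k} = ∅ := by
            rw [Set.eq_empty_iff_forall_notMem]
            rintro ω hω
            have h4 : c n ω = k := hω
            exact hk (h4 ▸ hcB n ω)
          rw [this, measureReal_empty]
          exact hw0 k
      exact prob_lt hw h3 (L n)
  -- the bad events
  set Z : ℕ → ℕ → Set Ω := fun i j => {ω | ∃ N₀ : ℕ, ∀ N : ℕ, N₀ ≤ N →
      (1 / (i + 1) : ℝ) * (((range N).filter fun n => n ∈ M).card : ℝ) <
        ((((range N).filter fun n => n ∈ M).filter fun n => ω ∈ D j n).card : ℝ)} with hZ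
  have hZp : ∀ i j, P.real (Z i j) ≤ 2 * ((K + 1) / (j + 1)) / (1 / (i + 1)) := by
    intro i j
    have h1 := hL2.eventually (gt_mem_nhds (show (0 : ℝ) < 1 / (j + 1) by positivity))
    have h2 : ∀ᶠ n in atTop, P.real (D j n) ≤ (K + 1) / (j + 1) := by
      filter_upwards [h1, eventually_ge_atTop n₀] with n hn hn'
      refine (hDp j n hn').trans ?_
      rw [add_div]
      have h5 : 1 / ((j : ℝ) + 1) * K = K / (j + 1) := by ring
      have h6 : (L n : ℝ) * w n 0 ≤ L n * max (w n 0) (1 / ((n : ℝ) + 1)) :=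
        mul_le_mul_of_nonneg_left (le_max_left _ _) (Nat.cast_nonneg _)
      rw [h5]
      linarith
    have h3 := freq (P := P) hM (hDm j) (δ := (K + 1) / (j + 1)) (by positivity) h2
      (ε := 1 / (i + 1)) (by positivity)
    convert h3
  have hZ0 : ∀ i, P (⋂ j, Z i j) = 0 := by
    intro i
    rw [← measureReal_eq_zero_iff (measure_ne_top _ _)]
    apply le_antisymm _ measureReal_nonneg
    have h1 : Tendsto (fun j : ℕ => 2 * ((K + 1) / ((j : ℝ) + 1)) / (1 / ((i : ℝ) + 1))) atTop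
        (𝓝 (2 * 0 / (1 / ((i : ℝ) + 1)))) := by
      apply Tendsto.div_const
      apply Tendsto.const_mul
      have := (tendsto_one_div_add_atTop_nhds_zero_nat (𝕜 := ℝ)).const_mul (K + 1)
      rw [mul_zero] at this
      refine this.congr fun j => ?_
      ring
    rw [mul_zero, zero_div] at h1
    refine ge_of_tendsto h1 (Eventually.of_forall fun j => ?_)
    exact (measureReal_mono (Set.iInter_subset _ j) (measure_ne_top _ _)).trans (hZp i j)
  have hall : ∀ᵐ ω ∂P, ∀ i : ℕ, ω ∉ ⋂ j, Z i j := by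
    rw [ae_all_iff]
    intro i
    exact compl_mem_ae_iff.2 (hZ0 i)
  have hall2 : ∀ᵐ ω ∂P, ∀ n : ℕ, n₀ ≤ n → c n ω = g n ω := by
    rw [ae_all_iff]
    intro n
    by_cases hn : n₀ ≤ n
    · filter_upwards [hge n hn] with ω hω _
      exact hω
    · exact Eventually.of_forall fun ω h => absurd h hn
  filter_upwards [hall, hall2] with ω hω hω2 ε hε
  obtain ⟨i, hi⟩ := exists_nat_one_div_lt (half_pos hε)
  have h1 := hω i
  rw [Set.mem_iInter] at h1
  push Not at h1
  obtain ⟨j, hj⟩ := h1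
  simp only [hZ, Set.mem_ofPred_eq, not_exists, not_forall, not_lt] at hj
  refine ⟨{n | n ∈ M ∧ n₀ ≤ n ∧ ω ∉ D j n}, fun n hn => hn.1, fun N₀ => ?_, ?_⟩
  · -- the elements of `M` below `n₀` are negligible
    obtain ⟨t, ht⟩ := exists_nat_ge ((n₀ : ℝ) / (ε / 2))
    obtain ⟨u, hu, hut⟩ := hM.exists_subset_card_eq t
    obtain ⟨N, hN, hle⟩ := hj (max N₀ (u.sup id + 1))
    refine ⟨N, (le_max_left _ _).trans hN, ?_⟩
    have hcard : (t : ℝ) ≤ (((range N).filter fun n => n ∈ M).card : ℝ) := by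
      rw [← hut]
      have : u ⊆ (range N).filter fun n => n ∈ M := by
        intro n hn
        rw [mem_filter, mem_range]
        refine ⟨?_, hu hn⟩
        have h7 : n ≤ u.sup id := le_sup (f := id) hn
        have h8 := (le_max_right N₀ (u.sup id + 1)).trans hN
        omega
      exact_mod_cast card_le_card this
    rw [card_setOf, card_setOf]
    have h2 := card_filter_add_card_filter_not (s := (range N).filter fun n => n ∈ M)
      (fun n => ω ∈ D j n)
    have h3 : ((((range N).filter fun n => n ∈ M).filter fun n => ω ∈ D j n).card : ℝ) +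
        ((((range N).filter fun n => n ∈ M).filter fun n => ¬ ω ∈ D j n).card : ℝ) =
        (((range N).filter fun n => n ∈ M).card : ℝ) := by exact_mod_cast h2
    have h4 : (1 / (i + 1) : ℝ) * (((range N).filter fun n => n ∈ M).card : ℝ) ≤
        ε / 2 * (((range N).filter fun n => n ∈ M).card : ℝ) :=
      mul_le_mul_of_nonneg_right hi.le (Nat.cast_nonneg _)
    have h5 : (((range N).filter fun n => n ∈ M).filter fun n => ¬ ω ∈ D j n) ⊆
        range n₀ ∪ (range N).filter fun n => n ∈ {n | n ∈ M ∧ n₀ ≤ n ∧ ω ∉ D j n} := by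
      intro n hn
      rw [mem_filter, mem_filter] at hn
      rw [mem_union, mem_filter, mem_range]
      by_cases h9 : n < n₀
      · exact Or.inl h9
      · exact Or.inr ⟨hn.1.1, hn.1.2, not_lt.1 h9, hn.2⟩
    have h6 := (card_le_card h5).trans (card_union_le _ _)
    rw [card_range] at h6
    have h7 : ((((range N).filter fun n => n ∈ M).filter fun n => ¬ ω ∈ D j n).card : ℝ) ≤
        n₀ + (((range N).filter fun n => n ∈ {n | n ∈ M ∧ n₀ ≤ n ∧ ω ∉ D j n}).card : ℝ) := by
      exact_mod_cast h6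
    have h8 : (n₀ : ℝ) ≤ ε / 2 * (((range N).filter fun n => n ∈ M).card : ℝ) := by
      rw [div_le_iff₀ (by positivity)] at ht
      have := mul_le_mul_of_nonneg_left hcard (show 0 ≤ ε / 2 by positivity)
      linarith
    linarith
  · apply universal_of_tendsto (hC2 j)
    · intro n hn
      by_contra hcon
      rw [hω2 n hn.2.1] at hcon
      exact hn.2.2 (Or.inl hcon)
    · have h2 : Tendsto L (atTop ⊓ 𝓟 {n | n ∈ M ∧ n₀ ≤ n ∧ ω ∉ D j n}) atTop :=
        hL1.mono_left inf_le_left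
      refine tendsto_atTop_mono' _ ?_ h2
      rw [EventuallyLE, eventually_inf_principal]
      refine Eventually.of_forall fun n hn => ?_
      rw [hω2 n hn.2.1]
      by_contra hcon
      exact hn.2.2 (Or.inr (not_le.1 hcon))

open Classical in
lemma Low.infinite {S T : Set ℕ} (hS : S.Infinite) {ε : ℝ} (hε : ε < 1) (h : Low S T ε) :
    T.Infinite := by
  intro hT
  obtain ⟨k, hk⟩ := exists_nat_gt ((hT.toFinset.card : ℝ) / (1 - ε))
  obtain ⟨u, hu, huk⟩ := hS.exists_subset_card_eq k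
  obtain ⟨N, hN, hle⟩ := ((eventually_ge_atTop (u.sup id + 1)).and h).exists
  rw [card_setOf, card_setOf] at hle
  have h1 : u ⊆ (range N).filter fun n => n ∈ S := by
    intro n hn
    rw [mem_filter, mem_range]
    have h7 : n ≤ u.sup id := le_sup (f := id) hn
    exact ⟨by omega, hu hn⟩
  have h2 : ((range N).filter fun n => n ∈ T) ⊆ hT.toFinset := by
    intro n hn
    exact hT.mem_toFinset.2 (mem_filter.1 hn).2
  have h3 : (k : ℝ) ≤ (((range N).filter fun n => n ∈ S).card : ℝ) := by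
    rw [← huk]
    exact_mod_cast card_le_card h1
  have h4 : (((range N).filter fun n => n ∈ T).card : ℝ) ≤ hT.toFinset.card := by
    exact_mod_cast card_le_card h2
  rw [div_lt_iff₀ (by linarith)] at hk
  have h5 := mul_le_mul_of_nonneg_left h3 (show 0 ≤ 1 - ε by linarith)
  linarith

/-- rigidity of random sets -/
theorem random_sets_rigid {B : Set ℕ} (hBu : HasUniv B) {S : Ω → Set ℕ} (hS : ∀ ω, S ω ⊆ B)
    (hm : ∀ n, MeasurableSet {ω | n ∈ S ω})
    (hind : ∀ m ∈ B, ∀ n ∈ B, m ≠ n →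
      P ({ω | m ∈ S ω} ∩ {ω | n ∈ S ω}) = P {ω | m ∈ S ω} * P {ω | n ∈ S ω})
    {p : ℕ → ℝ} (hp : Antitone p) (hpP : ∀ n ∈ B, P.real {ω | n ∈ S ω} = p n)
    (hdiv : ¬ Summable fun n : B => p n) :
    ∀ᵐ ω ∂P, (∀ q : ℕ, 2 ≤ q → ∀ μ : Measure UnitAddCircle, IsProbabilityMeasure μ →
      MeasurePreserving (fun x : UnitAddCircle => q • x) μ μ → (∀ x, μ {x} = 0) →
      (∀ c ∈ S ω, MeasurePreserving (fun x : UnitAddCircle => c • x) μ μ) → μ = volume) ∧
      ∀ ε : ℝ, 0 < ε → ∃ T : Set ℕ, T ⊆ S ω ∧ Low (S ω) T ε ∧ Universal (fun n => n) T := by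
  filter_upwards [random_sets hBu hS hm hind hp hpP hdiv] with ω hω
  refine ⟨fun q hq μ hμ hinv hat hMi => ?_, hω.2⟩
  obtain ⟨T, hTM, hT, hU⟩ := hω.2 (1 / 2) (by norm_num)
  have hTi := hT.infinite hω.1 (by norm_num)
  exact (((hU q hq μ hμ hinv hat).2 T subset_rfl hTi).2 μ hμ fun n hn => hMi n (hTM hn)).2
    Measure.AbsolutelyContinuous.rfl

end Pool.Agent.Helper99.AE
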