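import Mathlib

/-!
Random integers whose laws are dominated by nonincreasing weights, and sets of integers which miss a
small proportion of every initial segment.
-/

set_option autoImplicit false

open MeasureTheory Filter Topology Finset

namespace Pool.Agent.Helper99.AE

open Classical in
/-- Abel summation -/
lemma abel {A : Set ℕ} {η : ℝ} (hA : ∀ N : ℕ, (((range N).filter (fun c => c ∈ A)).card : ℝ) ≤ η * N)
    {w : ℕ → ℝ} (hw : Antitone w) (h0 : ∀ k, 0 ≤ w k) (N : ℕ) :
    ∑ k ∈ (range N).filter (fun c => c ∈ A), w k ≤ η * ∑ k ∈ range N, w k := by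
  have key : ∀ N : ℕ, ∑ k ∈ range N, ((if k ∈ A then (1 : ℝ) else 0) - η) * w k ≤
      ((((range N).filter (fun c => c ∈ A)).card : ℝ) - η * N) * w N := by
    intro N
    induction N with
    | zero => simp
    | succ N ih =>
      rw [sum_range_succ]
      have e : (((range (N + 1)).filter (fun c => c ∈ A)).card : ℝ) =
          ((range N).filter (fun c => c ∈ A)).card + (if N ∈ A then (1 : ℝ) else 0) := by
        rw [range_add_one, filter_insert]
        split_ifs with h
        · rw [card_insert_of_notMem (by simp)]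
          push_cast
          ring
        · simp
      have h1 := hA (N + 1)
      have h2 : w (N + 1) ≤ w N := hw (Nat.le_succ N)
      rw [e] at h1 ⊢
      push_cast at h1 ⊢
      nlinarith
  have h3 := key N
  have h4 := hA N
  have h5 : ((((range N).filter (fun c => c ∈ A)).card : ℝ) - η * N) * w N ≤ 0 :=
    mul_nonpos_of_nonpos_of_nonneg (by linarith) (h0 N)
  have h6 : ∑ k ∈ range N, ((if k ∈ A then (1 : ℝ) else 0) - η) * w k =
      ∑ k ∈ (range N).filter (fun c => c ∈ A), w k - η * ∑ k ∈ range N, w k := by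
    rw [mul_sum, sum_filter, ← sum_sub_distrib]
    apply sum_congr rfl
    intro k _
    split_ifs <;> ring
  linarith

variable {Ω : Type*} [MeasurableSpace Ω] {P : Measure Ω}

open Classical in
/-- the probability that a random integer with dominated law lies in a set of small proportions -/
lemma prob_mem [IsProbabilityMeasure P] {A : Set ℕ} {η : ℝ} (hη : 0 ≤ η)
    (hA : ∀ N : ℕ, (((range N).filter (fun c => c ∈ A)).card : ℝ) ≤ η * N)
    {w : ℕ → ℝ} (hw : Antitone w) (h0 : ∀ k, 0 ≤ w k) {K : ℝ} (hK : ∀ N, ∑ k ∈ range N, w k ≤ K)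
    {c : Ω → ℕ} (hd : ∀ k, P.real {ω | c ω = k} ≤ w k) :
    P.real {ω | c ω ∈ A} ≤ η * K := by
  have hmono : Monotone fun N : ℕ => {ω | c ω < N ∧ c ω ∈ A} := by
    intro N M h ω hω
    exact ⟨lt_of_lt_of_le hω.1 h, hω.2⟩
  have hU : {ω | c ω ∈ A} = ⋃ N : ℕ, {ω | c ω < N ∧ c ω ∈ A} := by
    ext ω
    simp only [Set.mem_ofPred_eq, Set.mem_iUnion]
    constructor
    · intro h
      exact ⟨c ω + 1, Nat.lt_succ_self _, h⟩
    · rintro ⟨N, -, h⟩
      exact h
  have ht : Tendsto (fun N : ℕ => P.real {ω | c ω < N ∧ c ω ∈ A}) atTop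
      (𝓝 (P.real {ω | c ω ∈ A})) := by
    rw [hU]
    exact (ENNReal.tendsto_toReal (measure_ne_top _ _)).comp
      (tendsto_measure_iUnion_atTop hmono)
  refine le_of_tendsto ht (Eventually.of_forall fun N => ?_)
  have h1 : {ω | c ω < N ∧ c ω ∈ A} = ⋃ k ∈ (range N).filter (fun c => c ∈ A), {ω | c ω = k} := by
    ext ω
    simp
  rw [h1]
  refine (measureReal_biUnion_finset_le _ _).trans ?_
  refine (sum_le_sum fun k _ => hd k).trans ((abel hA hw h0 N).trans ?_)
  exact mul_le_mul_of_nonneg_left (hK N) hη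

/-- the probability that a random integer with dominated law is small -/
lemma prob_lt {w : ℕ → ℝ} (hw : Antitone w) {c : Ω → ℕ}
    (hd : ∀ k, P.real {ω | c ω = k} ≤ w k) (L : ℕ) :
    P.real {ω | c ω < L} ≤ L * w 0 := by
  have h1 : {ω | c ω < L} = ⋃ k ∈ range L, {ω | c ω = k} := by
    ext ω
    simp
  rw [h1]
  refine (measureReal_biUnion_finset_le _ _).trans ?_
  refine (sum_le_sum fun k _ => (hd k).trans (hw (Nat.zero_le k))).trans ?_
  simp

/-- thresholds -/
lemma exists_thr {u : ℕ → ℝ} (hu : ∀ n, 0 < u n) (h : Tendsto u atTop (𝓝 0)) :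
    ∃ L : ℕ → ℕ, Tendsto L atTop atTop ∧ Tendsto (fun n => (L n : ℝ) * u n) atTop (𝓝 0) := by
  refine ⟨fun n => ⌊(Real.sqrt (u n))⁻¹⌋₊, ?_, ?_⟩
  · apply tendsto_nat_floor_atTop.comp
    apply Tendsto.inv_tendsto_nhdsGT_zero
    rw [tendsto_nhdsWithin_iff]
    refine ⟨?_, Eventually.of_forall fun n => Real.sqrt_pos.2 (hu n)⟩
    simpa using h.sqrt
  · have h1 : Tendsto (fun n => Real.sqrt (u n)) atTop (𝓝 0) := by
      simpa using h.sqrt
    refine squeeze_zero (fun n => by have := hu n; positivity) (fun n => ?_) h1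
    have h2 := Real.sqrt_pos.2 (hu n)
    have h3 := Nat.floor_le (inv_pos.2 h2).le
    calc (⌊(Real.sqrt (u n))⁻¹⌋₊ : ℝ) * u n ≤ (Real.sqrt (u n))⁻¹ * u n :=
          mul_le_mul_of_nonneg_right h3 (hu n).le
      _ = (Real.sqrt (u n))⁻¹ * (Real.sqrt (u n) * Real.sqrt (u n)) := by
          rw [Real.mul_self_sqrt (hu n).le]
      _ = Real.sqrt (u n) := by
          field_simp

end Pool.Agent.Helper99.AE
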