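import Mathlib

/-!
Events of small probability, infinitely often in the sense of upper density.
-/

set_option autoImplicit false

open MeasureTheory Filter Topology Finset

namespace Pool.Agent.Helper99.AE

variable {Ω : Type*} [MeasurableSpace Ω] {P : Measure Ω} [IsProbabilityMeasure P]

open Classical in
/-- Fatou's lemma for the frequencies of events of small probability -/
lemma freq {M : Set ℕ} (hM : M.Infinite) {B : ℕ → Set Ω} (hB : ∀ n, MeasurableSet (B n)) {δ : ℝ}
    (hδ : 0 < δ) (h : ∀ᶠ n in atTop, P.real (B n) ≤ δ) {ε : ℝ} (hε : 0 < ε) :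
    P.real {ω | ∃ N₀ : ℕ, ∀ N : ℕ, N₀ ≤ N →
      ε * (((range N).filter fun n => n ∈ M).card : ℝ) <
        ((((range N).filter fun n => n ∈ M).filter fun n => ω ∈ B n).card : ℝ)} ≤ 2 * δ / ε := by
  obtain ⟨n₀, hn₀⟩ := eventually_atTop.1 h
  set R : ℕ → Finset ℕ := fun N => (range N).filter fun n => n ∈ M with hR
  have hRmono : Monotone R := fun a b hab => filter_subset_filter _ (range_mono hab)
  have hRu : ∀ k : ℕ, ∃ N, k ≤ (R N).card := by
    intro k
    obtain ⟨t, ht, htk⟩ := hM.exists_subset_card_eq k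
    refine ⟨t.sup id + 1, ?_⟩
    rw [← htk]
    apply card_le_card
    intro n hn
    rw [hR, mem_filter, mem_range]
    exact ⟨Nat.lt_succ_of_le (le_sup (f := id) hn), ht hn⟩
  set X : ℕ → Ω → ℝ := fun N ω => (((R N).filter fun n => ω ∈ B n).card : ℝ) with hX
  have hXe : ∀ N, X N = fun ω => ∑ n ∈ R N, (B n).indicator (fun _ => (1 : ℝ)) ω := by
    intro N
    funext ω
    simp only [hX, Set.indicator_apply, card_filter]
    push_cast
    rfl
  have hXm : ∀ N, Measurable (X N) := by
    intro N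
    rw [hXe N]
    exact Finset.measurable_sum _ fun n _ => measurable_const.indicator (hB n)
  have hint : ∀ n, Integrable ((B n).indicator (fun _ => (1 : ℝ))) P := fun n =>
    (integrable_const (1 : ℝ)).indicator (hB n)
  have hXi : ∀ N, Integrable (X N) P := by
    intro N
    rw [hXe N]
    exact integrable_finsetSum _ fun n _ => hint n
  have hEX : ∀ N, ∫ ω, X N ω ∂P = ∑ n ∈ R N, P.real (B n) := by
    intro N
    rw [hXe N, integral_finsetSum _ fun n _ => hint n]
    apply sum_congr rfl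
    intro n _
    rw [integral_indicator_const _ (hB n)]
    simp
  have hEX2 : ∀ N, ∫ ω, X N ω ∂P ≤ n₀ + δ * (R N).card := by
    intro N
    rw [hEX N]
    have h1 : ∀ n ∈ R N, P.real (B n) ≤ (if n < n₀ then (1 : ℝ) else 0) + δ := by
      intro n _
      split_ifs with hn
      · have := measureReal_le_one (μ := P) (s := B n)
        linarith
      · rw [zero_add]
        exact hn₀ n (not_lt.1 hn)
    refine (sum_le_sum h1).trans ?_
    rw [sum_add_distrib, sum_const, nsmul_eq_mul, mul_comm δ]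
    refine add_le_add ?_ le_rfl
    rw [← sum_filter, sum_const, nsmul_eq_mul, mul_one]
    have h2 : (R N).filter (fun n => n < n₀) ⊆ range n₀ := by
      intro n hn
      exact mem_range.2 (mem_filter.1 hn).2
    have := card_le_card h2
    rw [card_range] at this
    exact_mod_cast this
  obtain ⟨N₂, hN₂⟩ := exists_nat_ge ((n₀ : ℝ) / δ)
  obtain ⟨N₁, hN₁⟩ := hRu (N₂ + 1)
  have hmark : ∀ N, N₁ ≤ N → P.real {ω | ε * (R N).card ≤ X N ω} ≤ 2 * δ / ε := by
    intro N hN
    have h0 : N₂ + 1 ≤ (R N).card := hN₁.trans (card_le_card (hRmono hN))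
    have h0' : (N₂ : ℝ) + 1 ≤ (R N).card := by exact_mod_cast h0
    have h1 := mul_meas_ge_le_integral_of_nonneg (μ := P) (f := X N)
      (Eventually.of_forall fun ω => by simp only [hX]; positivity) (hXi N) (ε * (R N).card)
    have h2 := hEX2 N
    have h3 : (n₀ : ℝ) ≤ δ * (R N).card := by
      have : (n₀ : ℝ) / δ ≤ (R N).card := by linarith
      rw [div_le_iff₀ hδ] at this
      linarith
    have hN' : (0 : ℝ) < (R N).card := by
      have : (0 : ℝ) ≤ N₂ := Nat.cast_nonneg _
      linarith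
    rw [le_div_iff₀ hε]
    have h4 : ε * (R N).card * P.real {ω | ε * (R N).card ≤ X N ω} ≤ 2 * δ * (R N).card := by
      refine h1.trans ?_
      linarith
    have h5 : ((R N).card : ℝ) * (P.real {ω | ε * (R N).card ≤ X N ω} * ε) ≤
        (R N).card * (2 * δ) := by linarith
    exact le_of_mul_le_mul_left h5 hN'
  have hmono : Monotone fun N₀ : ℕ => {ω | ∀ N : ℕ, N₀ ≤ N → ε * (R N).card < X N ω} := by
    intro a b hab ω hω N hN
    exact hω N (hab.trans hN)
  have hU : {ω | ∃ N₀ : ℕ, ∀ N : ℕ, N₀ ≤ N → ε * (R N).card < X N ω} =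
      ⋃ N₀ : ℕ, {ω | ∀ N : ℕ, N₀ ≤ N → ε * (R N).card < X N ω} := by
    ext ω
    simp
  have ht : Tendsto (fun N₀ : ℕ => P.real {ω | ∀ N : ℕ, N₀ ≤ N → ε * (R N).card < X N ω}) atTop
      (𝓝 (P.real {ω | ∃ N₀ : ℕ, ∀ N : ℕ, N₀ ≤ N → ε * (R N).card < X N ω})) := by
    rw [hU]
    exact (ENNReal.tendsto_toReal (measure_ne_top _ _)).comp (tendsto_measure_iUnion_atTop hmono)
  refine le_of_tendsto ht (Eventually.of_forall fun N₀ => ?_)
  refine le_trans ?_ (hmark (max N₀ N₁) (le_max_right _ _))
  apply measureReal_mono _ (measure_ne_top _ _)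
  intro ω hω
  exact (hω _ (le_max_left _ _)).le

end Pool.Agent.Helper99.AE
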