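import Pool.Agent.TH463.UR.Main
import Pool.Agent.Helper99.AE.Dom
import Pool.Agent.Helper99.AE.Freq

/-!
Random multipliers with dominated laws are universal along sets of indices of upper density as close
to one as desired.
-/

set_option autoImplicit false

open MeasureTheory Filter Topology Finset
open scoped ENNReal

namespace Pool.Agent.Helper99.AE

open Pool.Agent.TH463.UR

/-- the multipliers `g n`, `n ∈ T`, move all the atomless measures invariant under some `p` to
Lebesgue measure -/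
def Universal (g : ℕ → ℕ) (T : Set ℕ) : Prop :=
  ∀ p : ℕ, 2 ≤ p → ∀ μ : Measure UnitAddCircle, IsProbabilityMeasure μ →
    MeasurePreserving (fun x : UnitAddCircle => p • x) μ μ → (∀ x, μ {x} = 0) →
    (∀ ν : Measure UnitAddCircle, IsProbabilityMeasure ν → ν ≪ μ → ∀ f : C(UnitAddCircle, ℝ),
      Tendsto (fun n : ℕ => ∫ x, f (g n • x) ∂ν) (atTop ⊓ 𝓟 T) (𝓝 (∫ x, f x))) ∧
    ∀ S : Set ℕ, S ⊆ T → S.Infinite →
      (∀ᵐ x ∂μ, Dense {y : UnitAddCircle | ∃ n ∈ S, y = g n • x}) ∧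
      ∀ ν : Measure UnitAddCircle, IsProbabilityMeasure ν →
        (∀ n ∈ S, MeasurePreserving (fun x : UnitAddCircle => g n • x) ν ν) →
        (¬ ν ⟂ₘ μ → ∃ κ : ℝ≥0∞, 0 < κ ∧ κ • (volume : Measure UnitAddCircle) ≤ ν) ∧
        (ν ≪ μ → ν = volume)

lemma universal_of_tendsto {C : Set ℕ} (hC : ∀ p : ℕ, 2 ≤ p → ∀ μ : Measure UnitAddCircle,
    IsProbabilityMeasure μ → MeasurePreserving (fun x : UnitAddCircle => p • x) μ μ →
    (∀ x, μ {x} = 0) → Mixing C μ) {g : ℕ → ℕ} {T : Set ℕ} (hgC : ∀ n ∈ T, g n ∈ C)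
    (hg : Tendsto g (atTop ⊓ 𝓟 T) atTop) : Universal g T := by
  intro p hp μ hμ hinv hat
  have hmix := hC p hp μ hμ hinv hat
  have hgT : Tendsto g (atTop ⊓ 𝓟 T) (atTop ⊓ 𝓟 C) := by
    refine tendsto_inf.2 ⟨hg, tendsto_principal.2 ?_⟩
    rw [eventually_inf_principal]
    exact Eventually.of_forall hgC
  refine ⟨fun ν hν hac f => (hmix ν hν hac f).comp hgT, fun S hST hS => ?_⟩
  have hSC : g '' S ⊆ C := by
    rintro _ ⟨n, hn, rfl⟩
    exact hgC n (hST hn)
  have hSi : (g '' S).Infinite := by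
    intro hfin
    obtain ⟨N, hN⟩ := hfin.bddAbove
    have h1 : ∀ᶠ n in atTop ⊓ 𝓟 S, N < g n := by
      have h2 : Tendsto g (atTop ⊓ 𝓟 S) atTop :=
        hg.mono_left (inf_le_inf_left _ (principal_mono.2 hST))
      exact h2.eventually (eventually_gt_atTop N)
    have hne := neBot_inf hS
    have h3 : ∀ᶠ n in atTop ⊓ 𝓟 S, n ∈ S := by
      rw [eventually_inf_principal]
      exact Eventually.of_forall fun n hn => hn
    obtain ⟨n, hn1, hn2⟩ := (h1.and h3).exists
    exact absurd (hN ⟨n, hn2, rfl⟩) (not_le.2 hn1)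
  obtain ⟨h1, h2⟩ := consequences hmix hSC hSi
  refine ⟨?_, fun ν hν hinv => h2 ν hν ?_⟩
  · filter_upwards [h1] with x hx
    convert hx using 1
    ext y
    constructor
    · rintro ⟨n, hn, rfl⟩
      exact ⟨g n, ⟨n, hn, rfl⟩, rfl⟩
    · rintro ⟨_, ⟨n, hn, rfl⟩, rfl⟩
      exact ⟨n, hn, rfl⟩
  · rintro _ ⟨n, hn, rfl⟩
    exact hinv n hn

/-! ### The set of all the natural numbers -/

lemma reg_id : Reg (fun N : ℕ => (N : ℝ)) where
  nonneg := fun N => Nat.cast_nonneg N
  mul := fun A => ⟨A, Nat.cast_nonneg A, fun N M _ h => by exact_mod_cast h⟩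
  sum := by
    refine ⟨4, by norm_num, fun N hN => ?_⟩
    have h1 : ∀ k : ℕ, ∑ i ∈ range k, ((2 ^ (i + 1) : ℕ) : ℝ) ≤ 2 ^ (k + 1) := by
      intro k
      induction k with
      | zero => simp
      | succ k ih =>
        rw [sum_range_succ]
        push_cast at ih ⊢
        rw [pow_succ 2 (k + 1)]
        linarith
    refine (h1 _).trans ?_
    have h2 : 2 ^ Nat.log 2 N ≤ N := Nat.pow_log_le_self 2 (by omega)
    have h3 : (2 : ℝ) ^ Nat.log 2 N ≤ N := by exact_mod_cast h2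
    rw [pow_succ, pow_succ]
    linarith

lemma bt_univ : BT Set.univ (fun N : ℕ => (N : ℝ)) 2 0 := by
  classical
  intro N b r hb hbN
  have e : Nat.card {h : ℕ | h < N ∧ h ∈ Set.univ ∧ h % b = r} =
      ((range N).filter fun h => h % b = r).card := by
    rw [← card_setOf]
    congr!
    simp
  rw [e, pow_zero, mul_one]
  have h1 : ((range N).filter fun h => h % b = r).card ≤ N / b + 1 := by
    have h2 : ((range N).filter fun h => h % b = r) ⊆ (range (N / b + 1)).image (fun j => b * j + r) := by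
      intro h hh
      rw [mem_filter, mem_range] at hh
      rw [mem_image]
      refine ⟨h / b, ?_, ?_⟩
      · rw [mem_range, Nat.lt_succ_iff]
        exact Nat.div_le_div_right hh.1.le
      · rw [← hh.2]
        exact Nat.div_add_mod h b
    refine (card_le_card h2).trans (card_image_le.trans ?_)
    rw [card_range]
  have hb' : (0 : ℝ) < b := by exact_mod_cast hb
  have h3 : (((range N).filter fun h => h % b = r).card : ℝ) ≤ (N / b : ℕ) + 1 := by exact_mod_cast h1
  have h4 : ((N / b : ℕ) : ℝ) ≤ (N : ℝ) / b := Nat.cast_div_le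
  have h5 : (1 : ℝ) ≤ (N : ℝ) / b := by
    rw [one_le_div hb']
    exact_mod_cast hbN
  rw [show (2 : ℝ) * N / b = N / b + N / b by ring]
  linarith

open Classical in
/-- the universal set of natural numbers -/
lemma exists_C {η : ℝ} (hη : 0 < η) : ∃ C : Set ℕ,
    (∀ N : ℕ, (((range N).filter (fun c => c ∈ Cᶜ)).card : ℝ) ≤ η * N) ∧
    ∀ p : ℕ, 2 ≤ p → ∀ μ : Measure UnitAddCircle, IsProbabilityMeasure μ →
      MeasurePreserving (fun x : UnitAddCircle => p • x) μ μ → (∀ x, μ {x} = 0) → Mixing C μ := by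
  obtain ⟨C, -, h1, h2⟩ := mixing_of_set reg_id (by norm_num) bt_univ hη
  refine ⟨C, fun N => ?_, h2⟩
  refine le_trans (le_of_eq ?_) (h1 N)
  rw [card_setOf]
  congr 2
  ext c
  simp

variable {Ω : Type*} [MeasurableSpace Ω] {P : Measure Ω} [IsProbabilityMeasure P]

/-- `T` has relative upper density at least `1 - ε` in `M` -/
def Dens (M T : Set ℕ) (ε : ℝ) : Prop :=
  ∀ N₀ : ℕ, ∃ N : ℕ, N₀ ≤ N ∧ (1 - ε) * (Nat.card {n : ℕ | n < N ∧ n ∈ M} : ℝ) ≤
    (Nat.card {n : ℕ | n < N ∧ n ∈ T} : ℝ)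

open Classical in
/-- **Random multipliers.** -/
theorem random {M : Set ℕ} (hM : M.Infinite) {c : ℕ → Ω → ℕ} {w : ℕ → ℕ → ℝ} {K : ℝ}
    (hd : ∀ᶠ n in atTop, AEMeasurable (c n) P ∧ Antitone (w n) ∧
      (∀ N, ∑ k ∈ range N, w n k ≤ K) ∧ ∀ k, P.real {ω | c n ω = k} ≤ w n k)
    (h0 : Tendsto (fun n => w n 0) atTop (𝓝 0)) :
    ∀ᵐ ω ∂P, ∀ ε : ℝ, 0 < ε → ∃ T : Set ℕ, T ⊆ M ∧ Dens M T ε ∧ Universal (fun n => c n ω) T := by
  obtain ⟨n₀, hn₀⟩ := eventually_atTop.1 hd
  have hwn : ∀ n, n₀ ≤ n → ∀ k, 0 ≤ w n k := fun n hn k =>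
    measureReal_nonneg.trans ((hn₀ n hn).2.2.2 k)
  have hK0 : 0 ≤ K := by simpa using (hn₀ n₀ le_rfl).2.2.1 0
  obtain ⟨L, hL1, hL2⟩ := exists_thr (u := fun n => max (w n 0) (1 / ((n : ℝ) + 1)))
    (fun n => lt_max_of_lt_right (by positivity))
    (by simpa using h0.max (tendsto_one_div_add_atTop_nhds_zero_nat (𝕜 := ℝ)))
  choose C hC1 hC2 using fun j : ℕ => exists_C (show (0 : ℝ) < 1 / (j + 1) by positivity)
  -- measurable versions
  have hex : ∀ n, ∃ g : Ω → ℕ, Measurable g ∧ (n₀ ≤ n → c n =ᵐ[P] g) := by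
    intro n
    by_cases hn : n₀ ≤ n
    · exact ⟨(hn₀ n hn).1.mk, (hn₀ n hn).1.measurable_mk, fun _ => (hn₀ n hn).1.ae_eq_mk⟩
    · exact ⟨fun _ => 0, measurable_const, fun h => absurd h hn⟩
  choose g hgm hge using hex
  have hgd : ∀ n, n₀ ≤ n → ∀ k, P.real {ω | g n ω = k} ≤ w n k := by
    intro n hn k
    refine le_trans (le_of_eq ?_) ((hn₀ n hn).2.2.2 k)
    apply measureReal_congr
    filter_upwards [hge n hn] with ω hω
    exact propext ⟨fun h => hω.trans h, fun h => hω.symm.trans h⟩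
  set B : ℕ → ℕ → Set Ω := fun j n => {ω | g n ω ∉ C j ∨ g n ω < L n} with hB
  have hBm : ∀ j n, MeasurableSet (B j n) := fun j n =>
    (hgm n) (MeasurableSet.of_discrete (s := {k : ℕ | k ∉ C j ∨ k < L n}))
  have hBp : ∀ j n, n₀ ≤ n → P.real (B j n) ≤ 1 / (j + 1) * K + L n * w n 0 := by
    intro j n hn
    obtain ⟨-, hw, hK, -⟩ := hn₀ n hn
    have h1 : B j n = {ω | g n ω ∈ (C j)ᶜ} ∪ {ω | g n ω < L n} := by
      ext ω
      simp [hB]
    rw [h1]
    refine (measureReal_union_le _ _).trans (add_le_add ?_ ?_)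
    · exact prob_mem (by positivity) (fun N => by convert hC1 j N) hw (hwn n hn) hK (hgd n hn)
    · exact prob_lt hw (hgd n hn) (L n)
  -- the bad events
  set Z : ℕ → ℕ → Set Ω := fun i j => {ω | ∃ N₀ : ℕ, ∀ N : ℕ, N₀ ≤ N →
      (1 / (i + 1) : ℝ) * (((range N).filter fun n => n ∈ M).card : ℝ) <
        ((((range N).filter fun n => n ∈ M).filter fun n => ω ∈ B j n).card : ℝ)} with hZ
  have hZp : ∀ i j, P.real (Z i j) ≤ 2 * ((K + 1) / (j + 1)) / (1 / (i + 1)) := by
    intro i j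
    have h1 := hL2.eventually (gt_mem_nhds (show (0 : ℝ) < 1 / (j + 1) by positivity))
    have h2 : ∀ᶠ n in atTop, P.real (B j n) ≤ (K + 1) / (j + 1) := by
      filter_upwards [h1, eventually_ge_atTop n₀] with n hn hn'
      refine (hBp j n hn').trans ?_
      rw [add_div]
      have h5 : 1 / ((j : ℝ) + 1) * K = K / (j + 1) := by ring
      have h6 : (L n : ℝ) * w n 0 ≤ L n * max (w n 0) (1 / ((n : ℝ) + 1)) :=
        mul_le_mul_of_nonneg_left (le_max_left _ _) (Nat.cast_nonneg _)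
      rw [h5]
      linarith
    have h3 := freq (P := P) hM (hBm j) (δ := (K + 1) / (j + 1)) (by positivity) h2
      (ε := 1 / (i + 1)) (by positivity)
    convert h3
  have hZ0 : ∀ i, P (⋂ j, Z i j) = 0 := by
    intro i
    rw [← measureReal_eq_zero_iff (measure_ne_top _ _)]
    apply le_antisymm _ measureReal_nonneg
    have h1 : Tendsto (fun j : ℕ => 2 * ((K + 1) / ((j : ℝ) + 1)) / (1 / ((i : ℝ) + 1))) atTop
        (𝓝 (2 * 0 / (1 / ((i : ℝ) + 1)))) := by
      apply Tendsto.div_const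
      apply Tendsto.const_mul
      have := (tendsto_one_div_add_atTop_nhds_zero_nat (𝕜 := ℝ)).const_mul (K + 1)
      rw [mul_zero] at this
      refine this.congr fun j => ?_
      ring
    rw [mul_zero, zero_div] at h1
    refine ge_of_tendsto h1 (Eventually.of_forall fun j => ?_)
    exact (measureReal_mono (Set.iInter_subset _ j) (measure_ne_top _ _)).trans (hZp i j)
  have hall : ∀ᵐ ω ∂P, ∀ i : ℕ, ω ∉ ⋂ j, Z i j := by
    rw [ae_all_iff]
    intro i
    exact compl_mem_ae_iff.2 (hZ0 i)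
  have hall2 : ∀ᵐ ω ∂P, ∀ n : ℕ, n₀ ≤ n → c n ω = g n ω := by
    rw [ae_all_iff]
    intro n
    by_cases hn : n₀ ≤ n
    · filter_upwards [hge n hn] with ω hω _
      exact hω
    · exact Eventually.of_forall fun ω h => absurd h hn
  filter_upwards [hall, hall2] with ω hω hω2 ε hε
  obtain ⟨i, hi⟩ := exists_nat_one_div_lt (half_pos hε)
  have h1 := hω i
  rw [Set.mem_iInter] at h1
  push Not at h1
  obtain ⟨j, hj⟩ := h1
  simp only [hZ, Set.mem_ofPred_eq, not_exists, not_forall, not_lt] at hj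
  refine ⟨{n | n ∈ M ∧ n₀ ≤ n ∧ ω ∉ B j n}, fun n hn => hn.1, fun N₀ => ?_, ?_⟩
  · -- the elements of `M` below `n₀` are negligible
    obtain ⟨t, ht⟩ := exists_nat_ge ((n₀ : ℝ) / (ε / 2))
    obtain ⟨u, hu, hut⟩ := hM.exists_subset_card_eq t
    obtain ⟨N, hN, hle⟩ := hj (max N₀ (u.sup id + 1))
    refine ⟨N, (le_max_left _ _).trans hN, ?_⟩
    have hcard : (t : ℝ) ≤ (((range N).filter fun n => n ∈ M).card : ℝ) := by
      rw [← hut]
      have : u ⊆ (range N).filter fun n => n ∈ M := by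
        intro n hn
        rw [mem_filter, mem_range]
        refine ⟨?_, hu hn⟩
        have h7 : n ≤ u.sup id := le_sup (f := id) hn
        have h8 := (le_max_right N₀ (u.sup id + 1)).trans hN
        omega
      exact_mod_cast card_le_card this
    rw [card_setOf, card_setOf]
    have h2 := card_filter_add_card_filter_not (s := (range N).filter fun n => n ∈ M)
      (fun n => ω ∈ B j n)
    have h3 : ((((range N).filter fun n => n ∈ M).filter fun n => ω ∈ B j n).card : ℝ) +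
        ((((range N).filter fun n => n ∈ M).filter fun n => ¬ ω ∈ B j n).card : ℝ) =
        (((range N).filter fun n => n ∈ M).card : ℝ) := by exact_mod_cast h2
    have h4 : (1 / (i + 1) : ℝ) * (((range N).filter fun n => n ∈ M).card : ℝ) ≤
        ε / 2 * (((range N).filter fun n => n ∈ M).card : ℝ) :=
      mul_le_mul_of_nonneg_right hi.le (Nat.cast_nonneg _)
    have h5 : (((range N).filter fun n => n ∈ M).filter fun n => ¬ ω ∈ B j n) ⊆
        range n₀ ∪ (range N).filter fun n => n ∈ {n | n ∈ M ∧ n₀ ≤ n ∧ ω ∉ B j n} := by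
      intro n hn
      rw [mem_filter, mem_filter] at hn
      rw [mem_union, mem_filter, mem_range]
      by_cases h9 : n < n₀
      · exact Or.inl h9
      · exact Or.inr ⟨hn.1.1, hn.1.2, not_lt.1 h9, hn.2⟩
    have h6 := (card_le_card h5).trans (card_union_le _ _)
    rw [card_range] at h6
    have h7 : ((((range N).filter fun n => n ∈ M).filter fun n => ¬ ω ∈ B j n).card : ℝ) ≤
        n₀ + (((range N).filter fun n => n ∈ {n | n ∈ M ∧ n₀ ≤ n ∧ ω ∉ B j n}).card : ℝ) := by
      exact_mod_cast h6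
    have h8 : (n₀ : ℝ) ≤ ε / 2 * (((range N).filter fun n => n ∈ M).card : ℝ) := by
      rw [div_le_iff₀ (by positivity)] at ht
      have := mul_le_mul_of_nonneg_left hcard (show 0 ≤ ε / 2 by positivity)
      linarith
    linarith
  · apply universal_of_tendsto (hC2 j)
    · intro n hn
      by_contra hcon
      rw [hω2 n hn.2.1] at hcon
      exact hn.2.2 (Or.inl hcon)
    · have h2 : Tendsto L (atTop ⊓ 𝓟 {n | n ∈ M ∧ n₀ ≤ n ∧ ω ∉ B j n}) atTop :=
        hL1.mono_left inf_le_left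
      refine tendsto_atTop_mono' _ ?_ h2
      rw [EventuallyLE, eventually_inf_principal]
      refine Eventually.of_forall fun n hn => ?_
      rw [hω2 n hn.2.1]
      by_contra hcon
      exact hn.2.2 (Or.inr (not_le.1 hcon))

end Pool.Agent.Helper99.AE
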